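import Pool.Agent.FLG.PG.Cyc
import Pool.Agent.FLG.G.Nd
import Pool.Agent.FLG.G.Red
import Pool.Agent.FLG.G.Sep

/-!
# FLG-PG-Abs: the algebraic part over the field of fractions of the ring of functions
-/

set_option autoImplicit false

open scoped BigOperators

namespace Pool.Agent.FLG.G

variable {O K : Type*} [CommRing O] [IsDomain O] [Algebra ℂ O] [Field K] [Algebra O K]
  [IsFractionRing O K] [Algebra ℂ K] [IsScalarTower ℂ O K]
  {ι κ : Type*} [Fintype ι] [DecidableEq ι] [Fintype κ] [DecidableEq κ]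

variable (O K) in
/-- polynomials over `O` as power series over `K` -/
noncomputable def ps : Polynomial O →+* PowerSeries K :=
  Polynomial.coeToPowerSeries.ringHom.comp (Polynomial.mapRingHom (algebraMap O K))

omit [IsDomain O] [Algebra ℂ O] [IsFractionRing O K] [Algebra ℂ K] [IsScalarTower ℂ O K] in
theorem coeff_ps (p : Polynomial O) (j : ℕ) :
    PowerSeries.coeff j (ps O K p) = algebraMap O K (p.coeff j) := by
  show PowerSeries.coeff j ((p.map (algebraMap O K) : Polynomial K) : PowerSeries K) = _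
  rw [Polynomial.coeff_coe, Polynomial.coeff_map]

omit [IsDomain O] [Algebra ℂ O] [Algebra ℂ K] [IsScalarTower ℂ O K] in
theorem ps_inj : Function.Injective (ps O K) := by
  intro p q h
  refine Polynomial.ext fun j => ?_
  apply IsFractionRing.injective O K
  rw [← coeff_ps, ← coeff_ps, h]

omit [IsDomain O] [IsFractionRing O K] [IsScalarTower ℂ O K] in
theorem ps_PD {δ : Derivation ℂ O O} {δ' : Derivation ℂ K K}
    (h : ∀ a, δ' (algebraMap O K a) = algebraMap O K (δ a)) (p : Polynomial O) :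
    ps O K (PD δ p) = SD δ' (ps O K p) := by
  refine PowerSeries.ext fun j => ?_
  rw [coeff_SD, coeff_ps, coeff_ps, coeff_PD, h]

omit [IsDomain O] [Algebra ℂ O] [IsFractionRing O K] [IsScalarTower ℂ O K] in
theorem ps_derivative (p : Polynomial O) :
    ps O K (Polynomial.derivative p) = LX K (ps O K p) := by
  refine PowerSeries.ext fun j => ?_
  rw [coeff_ps, Polynomial.coeff_derivative]
  show _ = PowerSeries.coeff j (PowerSeries.derivative K (ps O K p))
  rw [PowerSeries.coeff_derivative, coeff_ps, map_mul, map_add, map_natCast, map_one]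

omit [IsDomain O] [Algebra ℂ O] [IsFractionRing O K] [Algebra ℂ K] [IsScalarTower ℂ O K]
  [DecidableEq ι] in
private theorem ps_trace (M : Matrix ι ι (Polynomial O)) :
    ps O K M.trace = (M.map (ps O K)).trace := by
  unfold Matrix.trace
  rw [map_sum]
  rfl

/-- the data -/
structure Dat (O : Type*) [CommRing O] [Algebra ℂ O] (ι κ : Type*) [Fintype ι]
    [DecidableEq ι] [Fintype κ] where
  e : ι
  D : κ → Derivation ℂ O O
  EP : κ → Matrix ι ι (Polynomial O)
  comm : ∀ h k, EP h * EP k = EP k * EP h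
  sym : ∀ h k, (EP k).map (PD (D h)) = (EP h).map (PD (D k))
  S : Matrix ι ι (Polynomial O)
  S' : Matrix ι ι (Polynomial O)
  inv : S * S' = 1
  commS : ∀ j, EP j * S = S * EP j
  rel : ∀ (j : κ) (Q : Matrix ι ι (Polynomial O)), (∀ k, Q * EP k = EP k * Q) →
    (Q * S.map (PD (D j))).trace = -(Q * S * (EP j).map Polynomial.derivative).trace
  c : κ → O
  hank : (hankel (∑ k, Polynomial.C (c k) • EP k)).det ≠ 0
  N : Matrix ι ι O
  euler : ∀ k, (∑ k, c k • (EP k).map fun p => p.coeff 0).map (D k) =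
    ((EP k).map fun p => p.coeff 0) + ((EP k).map fun p => p.coeff 0) * N -
      N * ((EP k).map fun p => p.coeff 0)

namespace Dat

variable (d : Dat O ι κ)

/-- at `s = 0` -/
def EO (k : κ) : Matrix ι ι O := (d.EP k).map fun p => p.coeff 0

/-- the class `c_1` -/
def CC : Matrix ι ι O := ∑ k, d.c k • d.EO k

variable (K) in
private noncomputable def ES (k : κ) : Matrix ι ι (PowerSeries K) := (d.EP k).map (ps O K)

variable (K) in
/-- over the field of fractions -/
def EK (k : κ) : Matrix ι ι K := (d.EO k).map (algebraMap O K)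

omit [IsDomain O] [IsFractionRing O K] [Algebra ℂ K] [IsScalarTower ℂ O K] [DecidableEq κ] in
private theorem ES_comm (j k : κ) : d.ES K j * d.ES K k = d.ES K k * d.ES K j := by
  unfold ES
  rw [← Matrix.map_mul, ← Matrix.map_mul, d.comm]

omit [IsDomain O] [IsFractionRing O K] [Algebra ℂ K] [IsScalarTower ℂ O K] [DecidableEq κ] in
private theorem ES_zero (k : κ) :
    (d.ES K k).map (PowerSeries.constantCoeff (R := K)) = d.EK K k := by
  ext1 u w
  rw [Matrix.map_apply]
  show PowerSeries.constantCoeff (ps O K (d.EP k u w)) = _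
  rw [← PowerSeries.coeff_zero_eq_constantCoeff_apply, coeff_ps]
  rfl

omit [IsDomain O] [IsFractionRing O K] [Algebra ℂ K] [IsScalarTower ℂ O K] [DecidableEq κ] in
private theorem EO_comm (j k : κ) : d.EO j * d.EO k = d.EO k * d.EO j := by
  have h1 : ∀ k, d.EO k = (d.EP k).map (Polynomial.constantCoeff (R := O)) := fun k => by
    ext1 u w
    rfl
  rw [h1, h1, ← Matrix.map_mul, ← Matrix.map_mul, d.comm]

omit [IsDomain O] [IsFractionRing O K] [Algebra ℂ K] [IsScalarTower ℂ O K] [DecidableEq κ] in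
private theorem EK_comm (j k : κ) : d.EK K j * d.EK K k = d.EK K k * d.EK K j := by
  unfold EK
  rw [← Matrix.map_mul, ← Matrix.map_mul, d.EO_comm]

omit [IsDomain O] [IsFractionRing O K] [Algebra ℂ K] [IsScalarTower ℂ O K] [DecidableEq κ] in
private theorem ES_cyc (hc : IsCyc (d.EK K) d.e) : IsCyc (d.ES K) d.e := by
  refine cyc_series ?_
  have h1 : (fun k => (d.ES K k).map (PowerSeries.constantCoeff (R := K))) = d.EK K :=
    funext fun k => d.ES_zero k
  rw [h1]
  exact hc

omit [IsDomain O] [IsFractionRing O K] [Algebra ℂ K] [IsScalarTower ℂ O K] [DecidableEq κ] in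
private theorem gm_lift {Q : Matrix ι ι (PowerSeries K)}
    (hQ : Q ∈ Submonoid.closure (Set.range (d.ES K))) :
    ∃ Q' : Matrix ι ι (Polynomial O), (∀ k, Q' * d.EP k = d.EP k * Q') ∧ Q = Q'.map (ps O K) := by
  induction hQ using Submonoid.closure_induction with
  | mem Q hQ =>
    obtain ⟨j, rfl⟩ := hQ
    exact ⟨d.EP j, fun k => d.comm _ _, rfl⟩
  | one =>
    refine ⟨1, fun k => by rw [one_mul, mul_one], ?_⟩
    rw [Matrix.map_one _ (map_zero _) (map_one _)]
  | mul x y _ _ hx hy =>
    obtain ⟨x', hx1, hx2⟩ := hx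
    obtain ⟨y', hy1, hy2⟩ := hy
    refine ⟨x' * y', fun k => ?_, ?_⟩
    · rw [mul_assoc, hy1, ← mul_assoc, hx1, mul_assoc]
    · rw [hx2, hy2, Matrix.map_mul]

omit [IsDomain O] [IsFractionRing O K] [IsScalarTower ℂ O K] [DecidableEq κ] in
private theorem rel_S {D' : κ → Derivation ℂ K K}
    (hD : ∀ k a, D' k (algebraMap O K a) = algebraMap O K (d.D k a)) (j : κ)
    (Q : Matrix ι ι (PowerSeries K)) (hQ : Q ∈ AA (d.ES K)) :
    (Q * (d.S.map (ps O K)).map (SD (D' j))).trace =
      -(Q * d.S.map (ps O K) * (d.ES K j).map (LX K)).trace := by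
  unfold AA at hQ
  rw [← Subalgebra.mem_toSubmodule, Algebra.adjoin_eq_span] at hQ
  induction hQ using Submodule.span_induction with
  | mem Q hQ =>
    obtain ⟨Q', h1, h2⟩ := d.gm_lift hQ
    have h3 := congrArg (ps O K) (d.rel j Q' h1)
    rw [map_neg, ps_trace, ps_trace, Matrix.map_mul, Matrix.map_mul, Matrix.map_mul] at h3
    have h4 : (d.S.map (ps O K)).map (SD (D' j)) = (d.S.map (PD (d.D j))).map (ps O K) := by
      ext1 u w
      exact (ps_PD (hD j) (d.S u w)).symm
    have h5 : (d.ES K j).map (LX K) = ((d.EP j).map Polynomial.derivative).map (ps O K) := by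
      ext1 u w
      exact (ps_derivative (d.EP j u w)).symm
    rw [h4, h5, h2]
    exact h3
  | zero =>
    rw [zero_mul, zero_mul, zero_mul, Matrix.trace_zero, neg_zero]
  | add x y _ _ hx hy =>
    rw [add_mul, add_mul, add_mul, Matrix.trace_add, Matrix.trace_add, hx, hy, neg_add]
  | smul a x _ hx =>
    rw [smul_mul_assoc, smul_mul_assoc, smul_mul_assoc, Matrix.trace_smul, Matrix.trace_smul, hx,
      smul_neg]

omit [IsDomain O] [IsFractionRing O K] [Algebra ℂ K] [IsScalarTower ℂ O K] [DecidableEq κ] in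
private theorem CP_mem :
    (∑ k, Polynomial.C (d.c k) • d.EP k).map (ps O K) ∈ AA (d.ES K) := by
  have h1 : (∑ k, Polynomial.C (d.c k) • d.EP k).map (ps O K) =
      ∑ k, (ps O K (Polynomial.C (d.c k))) • d.ES K k := by
    ext1 u w
    rw [Matrix.map_apply, Matrix.sum_apply, Matrix.sum_apply, map_sum]
    refine Finset.sum_congr rfl fun j _ => ?_
    rw [Matrix.smul_apply, Matrix.smul_apply, smul_eq_mul, smul_eq_mul, map_mul]
    rfl
  rw [h1]
  refine Subalgebra.sum_mem _ fun j _ => ?_
  refine Subalgebra.smul_mem _ ?_ _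
  exact Algebra.subset_adjoin ⟨j, rfl⟩

omit [IsDomain O] [IsFractionRing O K] [Algebra ℂ K] [IsScalarTower ℂ O K] [DecidableEq κ] in
private theorem CK_eq : d.CC.map (algebraMap O K) = ∑ k, (algebraMap O K (d.c k)) • d.EK K k := by
  unfold CC
  ext1 u w
  rw [Matrix.map_apply, Matrix.sum_apply, Matrix.sum_apply, map_sum]
  refine Finset.sum_congr rfl fun j _ => ?_
  rw [Matrix.smul_apply, Matrix.smul_apply, smul_eq_mul, smul_eq_mul, map_mul]
  rfl

omit [IsDomain O] [IsFractionRing O K] [Algebra ℂ K] [IsScalarTower ℂ O K] [DecidableEq κ] in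
private theorem CK_mem : d.CC.map (algebraMap O K) ∈ AA (d.EK K) := by
  rw [d.CK_eq]
  refine Subalgebra.sum_mem _ fun j _ => ?_
  refine Subalgebra.smul_mem _ ?_ _
  exact Algebra.subset_adjoin ⟨j, rfl⟩

omit [IsDomain O] [IsScalarTower ℂ O K] in
private theorem nd_S (hc : IsCyc (d.EK K) d.e) :
    ∀ Q ∈ AA (d.ES K), (∀ R ∈ AA (d.ES K), (Q * R).trace = 0) → Q = 0 := by
  refine nd_of_hankel (fun h k => d.ES_comm h k) (d.ES_cyc hc) d.CP_mem ?_
  have h2 : hankel ((∑ k, Polynomial.C (d.c k) • d.EP k).map (ps O K)) =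
      (ps O K).mapMatrix (hankel (∑ k, Polynomial.C (d.c k) • d.EP k)) :=
    hankel_map (ps O K) _
  rw [h2, ← RingHom.map_det]
  intro h0
  exact d.hank (ps_inj (by rw [h0, map_zero]))

omit [IsDomain O] [IsFractionRing O K] [IsScalarTower ℂ O K] in
private theorem euler_K {D' : κ → Derivation ℂ K K}
    (hD : ∀ k a, D' k (algebraMap O K a) = algebraMap O K (d.D k a)) (k : κ)
    (Q : Matrix ι ι K) (hQ : Q ∈ AA (d.EK K)) :
    (Q * (d.CC.map (algebraMap O K)).map (D' k)).trace = (Q * d.EK K k).trace := by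
  have h1 : (d.CC.map (algebraMap O K)).map (D' k) = d.EK K k +
      d.EK K k * d.N.map (algebraMap O K) - d.N.map (algebraMap O K) * d.EK K k := by
    have h2 : (d.CC.map (algebraMap O K)).map (D' k) = (d.CC.map (d.D k)).map (algebraMap O K) := by
      ext1 u w
      exact hD k _
    have h3 : d.CC.map (d.D k) = d.EO k + d.EO k * d.N - d.N * d.EO k := d.euler k
    rw [h2, h3]
    unfold EK
    rw [← Matrix.map_mul, ← Matrix.map_mul]
    ext1 u w
    simp only [Matrix.map_apply, Matrix.sub_apply, Matrix.add_apply, map_sub, map_add]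
  have hc : Q * d.EK K k = d.EK K k * Q :=
    AA_comm (fun h k => d.EK_comm h k) hQ (Algebra.subset_adjoin ⟨k, rfl⟩)
  rw [h1, mul_sub, mul_add, Matrix.trace_sub, Matrix.trace_add, ← mul_assoc, ← mul_assoc,
    Matrix.trace_mul_comm (Q * d.N.map (algebraMap O K)), ← mul_assoc, hc]
  ring

omit [IsDomain O] [IsScalarTower ℂ O K] in
theorem sep {D' : κ → Derivation ℂ K K}
    (hD : ∀ k a, D' k (algebraMap O K a) = algebraMap O K (d.D k a))
    (hc : IsCyc (d.EK K) d.e) : (d.CC.charpoly.map (algebraMap O K)).Separable := by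
  obtain ⟨T, hT⟩ : ∃ T : Matrix ι ι (PowerSeries K), T = d.S.map (ps O K) := ⟨_, rfl⟩
  obtain ⟨T', hT'⟩ : ∃ T' : Matrix ι ι (PowerSeries K), T' = d.S'.map (ps O K) := ⟨_, rfl⟩
  have hTT : T * T' = 1 := by
    rw [hT, hT', ← Matrix.map_mul, d.inv, Matrix.map_one _ (map_zero _) (map_one _)]
  have hTT' : T' * T = 1 := mul_eq_one_comm.1 hTT
  have hTc : ∀ j, d.ES K j * T = T * d.ES K j := by
    intro j
    have h1 := congrArg (fun M : Matrix ι ι (Polynomial O) => M.map (ps O K)) (d.commS j)
    beta_reduce at h1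
    rw [Matrix.map_mul, Matrix.map_mul] at h1
    rw [hT]
    exact h1
  have hTc' : ∀ j, d.ES K j * T' = T' * d.ES K j := by
    intro j
    calc d.ES K j * T' = T' * T * (d.ES K j * T') := by rw [hTT', one_mul]
      _ = T' * (d.ES K j * T) * T' := by rw [hTc, mul_assoc, mul_assoc, mul_assoc]
      _ = T' * d.ES K j := by rw [mul_assoc, mul_assoc, hTT, mul_one]
  have hcyc := d.ES_cyc hc
  have hTm : T ∈ AA (d.ES K) := IsCyc.mem (fun h k => d.ES_comm h k) hcyc hTc
  have hTm' : T' ∈ AA (d.ES K) := IsCyc.mem (fun h k => d.ES_comm h k) hcyc hTc'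
  have hsym : ∀ h k, (d.ES K k).map (SD (D' h)) = (d.ES K h).map (SD (D' k)) := by
    intro h k
    ext1 u w
    have h1 := congrFun (congrFun (d.sym h k) u) w
    rw [Matrix.map_apply, Matrix.map_apply] at h1
    show SD (D' h) (ps O K (d.EP k u w)) = SD (D' k) (ps O K (d.EP h u w))
    rw [← ps_PD (hD h), ← ps_PD (hD k), h1]
  obtain ⟨Ξ, add, mul, hsc⟩ := exists_der (fun h k => d.ES_comm h k) (fun k => SD (D' k))
    (LX K) hsym (d.nd_S hc) hTm hTm' hTT'
    (fun h Q hQ => by
      rw [hT]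
      exact d.rel_S hD h Q hQ)
  have hX : Ξ (algebraMap (PowerSeries K) (AA (d.ES K)) PowerSeries.X) = 1 := by
    rw [hsc]
    · have h1 : LX K PowerSeries.X = 1 := PowerSeries.derivative_X
      rw [h1, map_one]
    · intro k
      refine PowerSeries.ext fun i => ?_
      rw [coeff_SD, PowerSeries.coeff_X, map_zero]
      split_ifs
      · exact Derivation.map_one_eq_zero _
      · exact map_zero _
  have hC : ∀ c : ℂ, Ξ (algebraMap (PowerSeries K) (AA (d.ES K))
      (algebraMap ℂ (PowerSeries K) c)) = 0 := by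
    intro c
    rw [hsc]
    · rw [Derivation.map_algebraMap, map_zero]
    · intro k
      exact Derivation.map_algebraMap _ _
  have hnd := nd_zero (fun h k => d.ES_comm h k) hcyc (d.nd_S hc) Ξ add mul hX hC
  have hfun : (fun k => (d.ES K k).map (PowerSeries.constantCoeff (R := K))) = d.EK K :=
    funext fun k => d.ES_zero k
  rw [hfun] at hnd
  have hsep := separable_of_nd (E := d.EK K) (fun h k => d.EK_comm h k)
    hc hnd D' d.CK_mem (fun h Q hQ => d.euler_K hD h Q hQ)
  have h1 : (d.CC.map (algebraMap O K)).charpoly = d.CC.charpoly.map (algebraMap O K) :=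
    Matrix.charpoly_map _ _
  rw [← h1]
  exact (Polynomial.separable_map (algebraMap K (FractionRing K))).1 hsep

end Dat

end Pool.Agent.FLG.G
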