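import Pool.Agent.FLG.G.OO
import Pool.Agent.FLG.P.Cos

/-!
# FLG-PG-Bas: coordinates on `H^2(G/P)`
-/

set_option autoImplicit false

open scoped BigOperators
open Pool.Agent.DST.TE

namespace Pool.Agent.FLG.Par

open RS Pool.Agent.FLG.G

variable {r : ℕ}

/-- a generating system of `H^2(G/P)` -/
structure Bas (P : Par r) (m : ℕ) where
  b : Fin m → Fin r → ℂ
  inv : ∀ k, P.Inv (b k)
  span : ∀ h, P.Inv h → ∃ c : Fin m → ℂ, h = ∑ k, c k • b k

variable {P : Par r}

theorem ch_sum {m : ℕ} (c : Fin m → ℂ) (b : Fin m → Fin r → ℂ) (a : Fin r → ℤ) :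
    P.D.ch (∑ k, c k • b k) a = ∑ k, c k * P.D.ch (b k) a := by
  unfold RS.ch
  simp only [Finset.sum_apply, Pi.smul_apply, smul_eq_mul, Finset.sum_mul, Finset.mul_sum]
  rw [Finset.sum_comm]
  exact Finset.sum_congr rfl fun k _ => Finset.sum_congr rfl fun i _ => by ring

theorem hv_sum {m : ℕ} (c : Fin m → ℂ) (b : Fin m → Fin r → ℂ) (u : P.D.W) (y : Fin r → ℂ) :
    P.D.hv (∑ k, c k • b k) u y = ∑ k, c k * P.D.hv (b k) u y := by
  unfold RS.hv
  simp only [Finset.sum_apply, Pi.smul_apply, smul_eq_mul, Finset.sum_mul, Finset.mul_sum]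
  rw [Finset.sum_comm]
  exact Finset.sum_congr rfl fun k _ => Finset.sum_congr rfl fun i _ => by ring

/-- the submodule of divisor classes -/
def HJ (P : Par r) : Submodule ℂ (Fin r → ℂ) where
  carrier := {h | P.Inv h}
  add_mem' := by
    intro x y hx hy j hj
    have h1 : P.D.ch (x + y) (al j) = P.D.ch x (al j) + P.D.ch y (al j) := by
      unfold RS.ch
      rw [← Finset.sum_add_distrib]
      exact Finset.sum_congr rfl fun i _ => by rw [Pi.add_apply]; ring
    rw [h1, hx j hj, hy j hj, add_zero]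
  zero_mem' := by
    intro j _
    unfold RS.ch
    simp
  smul_mem' := by
    intro c x hx j hj
    have h1 : P.D.ch (c • x) (al j) = c * P.D.ch x (al j) := by
      unfold RS.ch
      rw [Finset.mul_sum]
      exact Finset.sum_congr rfl fun i _ => by rw [Pi.smul_apply, smul_eq_mul]; ring
    rw [h1, hx j hj, mul_zero]

theorem exists_bas (P : Par r) : ∃ m, Nonempty (P.Bas m) := by
  refine ⟨Module.finrank ℂ P.HJ, ⟨{
    b := fun k => (Module.finBasis ℂ P.HJ k : Fin r → ℂ)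
    inv := fun k => (Module.finBasis ℂ P.HJ k).2
    span := fun h hh => ?_ }⟩⟩
  refine ⟨fun k => (Module.finBasis ℂ P.HJ).repr ⟨h, hh⟩ k, ?_⟩
  have h1 := (Module.finBasis ℂ P.HJ).sum_repr ⟨h, hh⟩
  have h2 := congrArg (Submodule.subtype P.HJ) h1
  rw [map_sum] at h2
  simp only [map_smul, Submodule.subtype_apply] at h2
  exact h2.symm

namespace Bas

variable {m : ℕ} (n : P.Bas m)

/-- the point with the coordinates `τ` -/
def T (τ : Fin m → ℂ) : Fin r → ℂ := ∑ k, τ k • n.b k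

theorem T_inv (τ : Fin m → ℂ) : P.Inv (n.T τ) := by
  have h1 : n.T τ ∈ P.HJ := Submodule.sum_mem _ fun k _ => Submodule.smul_mem _ _ (n.inv k)
  exact h1

theorem T_surj {t : Fin r → ℂ} (ht : P.Inv t) : ∃ τ, n.T τ = t := by
  obtain ⟨c, hc⟩ := n.span t ht
  exact ⟨c, hc.symm⟩

/-- `T` as a continuous linear map -/
noncomputable def TL : (Fin m → ℂ) →L[ℂ] (Fin r → ℂ) :=
  ∑ k, (ContinuousLinearMap.proj k : (Fin m → ℂ) →L[ℂ] ℂ).smulRight (n.b k)

theorem TL_apply (τ : Fin m → ℂ) : n.TL τ = n.T τ := by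
  unfold TL T
  rw [sum_apply]
  rfl

theorem TL_eq : (n.TL : (Fin m → ℂ) → Fin r → ℂ) = n.T := funext n.TL_apply

theorem TL_single (k : Fin m) : n.TL (Pi.single k 1) = n.b k := by
  rw [TL_apply]
  unfold T
  rw [Finset.sum_eq_single k]
  · rw [Pi.single_eq_same, one_smul]
  · intro j _ hj
    rw [Pi.single_eq_of_ne hj, zero_smul]
  · intro h
    exact absurd (Finset.mem_univ k) h

/-- pull back of entire functions -/
noncomputable def pb : OO r →+* OO m where
  toFun f := ⟨fun τ => f.1 (n.T τ), by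
    have h1 : AnalyticOnNhd ℂ (fun τ => f.1 (n.TL τ)) Set.univ :=
      AnalyticOnNhd.comp f.2 (n.TL.analyticOnNhd _) (fun _ _ => Set.mem_univ _)
    rw [n.TL_eq] at h1
    exact h1⟩
  map_one' := rfl
  map_mul' _ _ := rfl
  map_zero' := rfl
  map_add' _ _ := rfl

theorem pb_apply (f : OO r) (τ : Fin m → ℂ) : (n.pb f).1 τ = f.1 (n.T τ) := rfl

theorem evO_pb (f : OO r) (τ : Fin m → ℂ) : evO τ (n.pb f) = evO (n.T τ) f := rfl

theorem pb_alg (c : ℂ) : n.pb (algebraMap ℂ (OO r) c) = algebraMap ℂ (OO m) c := rfl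

theorem dO_pb (k : Fin m) (f : OO r) :
    dO (Pi.single k 1) (n.pb f) = n.pb (dO (n.b k) f) := by
  refine OO.ext_fun fun τ => ?_
  rw [dO_apply, pb_apply, dO_apply]
  have h1 : (n.pb f).1 = f.1 ∘ n.TL := by
    funext τ
    rw [pb_apply, Function.comp_apply, n.TL_apply]
  have h2 : DifferentiableAt ℂ f.1 (n.TL τ) := (f.2 _ (Set.mem_univ _)).differentiableAt
  rw [h1, fderiv_comp τ h2 n.TL.differentiableAt, ContinuousLinearMap.comp_apply,
    ContinuousLinearMap.fderiv, n.TL_single, n.TL_apply]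

theorem ev_pb (s : ℂ) (τ : Fin m → ℂ) (p : Polynomial (OO r)) :
    ev s τ (p.map n.pb) = ev s (n.T τ) p := by
  unfold ev
  rw [Polynomial.coe_eval₂RingHom, Polynomial.coe_eval₂RingHom, Polynomial.eval₂_map]
  rfl

theorem PD_pb (k : Fin m) (p : Polynomial (OO r)) :
    PD (dO (Pi.single k 1)) (p.map n.pb) = (PD (dO (n.b k)) p).map n.pb := by
  refine Polynomial.ext fun j => ?_
  rw [coeff_PD, Polynomial.coeff_map, Polynomial.coeff_map, coeff_PD, n.dO_pb]

/-- the exponentials `q^μ` -/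
noncomputable def qB (μ : Fin r → ℤ) : OO m := n.pb (qO μ)

theorem qB_apply (μ : Fin r → ℤ) (τ : Fin m → ℂ) : (n.qB μ).1 τ = qq (n.T τ) μ := rfl

theorem dO_qB (k : Fin m) (a : Fin r → ℤ) :
    dO (Pi.single k 1) (n.qB (P.D.co a)) = P.D.ch (n.b k) a • n.qB (P.D.co a) := by
  unfold qB
  rw [n.dO_pb, dO_qO]
  rfl

end Bas

end Pool.Agent.FLG.Par
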