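import Pool.Agent.FLG.PG.Schur
import Pool.Agent.FLG.G.CommE
import Pool.Agent.FLG.P.CommT

/-!
# FLG-PG-CommE: the quantum products with divisors on `G/P` commute
-/

set_option autoImplicit false

open scoped BigOperators
open Pool.Agent.DST.TE

namespace Pool.Agent.FLG.Par

open RS

variable {r : ℕ} {P : Par r}

private theorem ch_refl (h : Fin r → ℂ) {a γ : Fin r → ℤ} (ha : a ∈ P.D.Φ) (hγ : γ ∈ P.D.Φ) :
    P.D.ch h (P.D.rt (P.D.refl a) γ) =
      P.D.ch h γ - (dotProduct (P.D.co γ) a : ℤ) * P.D.ch h a := by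
  unfold RS.ch
  rw [Finset.mul_sum, ← Finset.sum_sub_distrib]
  refine Finset.sum_congr rfl fun j _ => ?_
  have h1 : P.D.co (P.D.rt (P.D.refl a) γ) j = P.D.co γ j - P.D.co a j * dotProduct (P.D.co γ) a := by
    rw [← dot_al (P.D.co (P.D.rt (P.D.refl a) γ)) j, co_rt (P.D.refl a) hγ, refl_inv ha, rt_refl ha,
      dotProduct_sub, dotProduct_smul, dot_al, dot_al, smul_eq_mul]
  rw [h1]
  push_cast
  ring

private theorem key {h h' : Fin r → ℂ} {F F' : P.X → ℂ} {κ : P.X → (Fin r → ℤ) → ℂ}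
    (t : Fin r → ℂ)
    (hF : ∀ w : P.X, ∀ a ∈ P.Pos, F (P.fl (w.1 * P.D.refl a)) - F w = κ w a * P.D.ch h a)
    (hF' : ∀ w : P.X, ∀ a ∈ P.Pos, F' (P.fl (w.1 * P.D.refl a)) - F' w = κ w a * P.D.ch h' a) :
    Matrix.diagonal F * P.E (P.D.ch h') t - P.E (P.D.ch h') t * Matrix.diagonal F =
      Matrix.diagonal F' * P.E (P.D.ch h) t - P.E (P.D.ch h) t * Matrix.diagonal F' := by
  refine Matrix.ext fun u w => ?_
  rw [Matrix.sub_apply, Matrix.sub_apply, Matrix.diagonal_mul, Matrix.mul_diagonal, Matrix.diagonal_mul,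
    Matrix.mul_diagonal]
  have e1 : F u * P.E (P.D.ch h') t u w - P.E (P.D.ch h') t u w * F w =
    (F u - F w) * P.E (P.D.ch h') t u w := by ring
  have e2 : F' u * P.E (P.D.ch h) t u w - P.E (P.D.ch h) t u w * F' w =
    (F' u - F' w) * P.E (P.D.ch h) t u w := by ring
  rw [e1, e2]
  unfold E
  rw [Matrix.of_apply, Matrix.of_apply, Finset.mul_sum, Finset.mul_sum]
  refine Finset.sum_congr rfl fun a ha => ?_
  by_cases hu : u = P.fl (w.1 * P.D.refl a)
  · rw [if_pos hu, if_pos hu]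
    have h1 := hF w a ha
    have h2 := hF' w a ha
    rw [← hu] at h1 h2
    rw [h1, h2]
    ring
  · rw [if_neg hu, if_neg hu, mul_zero, mul_zero]

private theorem jac {R : Type*} [Ring R] {E E' M X X' : R} (h1 : E * M - M * E = X) (h2 : E' * M - M * E' = X')
    (h3 : X * E' - E' * X = X' * E - E * X') : (E * E' - E' * E) * M = M * (E * E' - E' * E) := by
  have e1 : (E * E' - E' * E) * M - M * (E * E' - E' * E) =
      E * (E' * M - M * E') + (E * M - M * E) * E' - E' * (E * M - M * E) - (E' * M - M * E') * E := by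
    noncomm_ring
  rw [h1, h2] at e1
  have e2 : E * X' + X * E' - E' * X - X' * E = (X * E' - E' * X) - (X' * E - E * X') := by
    noncomm_ring
  rw [e2, h3, sub_self] at e1
  exact sub_eq_zero.1 e1

private theorem E_A' {h : Fin r → ℂ} (hh : P.Inv h) (t : Fin r → ℂ) (i : Fin r) :
    P.E (P.D.ch h) t * P.A i - P.A i * P.E (P.D.ch h) t =
      -Matrix.diagonal fun w => P.D.ch h (P.D.rt w.1⁻¹ (al i)) := by
  have h1 : ∀ k ∈ Finset.Icc 1 P.KK, P.Eq (P.D.ch h) t (k : ℤ) * P.A i =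
      P.A i * P.Eq (P.D.ch h) t (k : ℤ) := fun k _ => Eq_A (lab_ch hh) t k i
  rw [E_eq, add_mul, mul_add, Finset.sum_mul, Finset.mul_sum, Finset.sum_congr rfl h1,
    add_sub_add_right_eq_sub, E0_A (lab_ch hh) i]

private theorem ch_fl {h : Fin r → ℂ} (hh : P.Inv h) (w : P.D.W) {b : Fin r → ℤ} (hb : b ∈ P.D.Φ) :
    P.D.ch h (P.D.rt (P.fl w).1⁻¹ b) = P.D.ch h (P.D.rt w⁻¹ b) := by
  obtain ⟨v, hv, hwv⟩ := fl_spec (P := P) w
  have h1 : (P.fl w).1⁻¹ = v * w⁻¹ := by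
    conv_rhs => rw [hwv]
    group
  rw [h1, P.D.rt_mul]
  exact (lab_ch hh).inv v hv _ (P.D.rt_mem.2 hb)

private theorem key_rt {h h' : Fin r → ℂ} (hh : P.Inv h) (hh' : P.Inv h') (t : Fin r → ℂ)
    {b : Fin r → ℤ} (hb : b ∈ P.D.Φ) :
    (Matrix.diagonal fun w : P.X => P.D.ch h (P.D.rt w.1⁻¹ b)) * P.E (P.D.ch h') t -
        P.E (P.D.ch h') t * (Matrix.diagonal fun w : P.X => P.D.ch h (P.D.rt w.1⁻¹ b)) =
      (Matrix.diagonal fun w : P.X => P.D.ch h' (P.D.rt w.1⁻¹ b)) * P.E (P.D.ch h) t -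
        P.E (P.D.ch h) t * (Matrix.diagonal fun w : P.X => P.D.ch h' (P.D.rt w.1⁻¹ b)) := by
  have h1 : ∀ g : Fin r → ℂ, P.Inv g → ∀ (w : P.X), ∀ a ∈ P.Pos,
      P.D.ch g (P.D.rt (P.fl (w.1 * P.D.refl a)).1⁻¹ b) - P.D.ch g (P.D.rt w.1⁻¹ b) =
      -((dotProduct (P.D.co (P.D.rt w.1⁻¹ b)) a : ℤ) : ℂ) * P.D.ch g a := by
    intro g hg w a ha
    have ha' := pos_mem ha
    rw [ch_fl hg _ hb, mul_inv_rev, refl_inv ha', P.D.rt_mul, ch_refl g ha' (P.D.rt_mem.2 hb)]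
    ring
  exact key t (fun w a ha => h1 h hh w a ha) (fun w a ha => h1 h' hh' w a ha)

theorem E_comm {h h' t : Fin r → ℂ} (hh : P.Inv h) (hh' : P.Inv h') (ht : P.Inv t) :
    P.E (P.D.ch h) t * P.E (P.D.ch h') t = P.E (P.D.ch h') t * P.E (P.D.ch h) t := by
  obtain ⟨k, hk⟩ := schur (P := P) t
    (K := P.E (P.D.ch h) t * P.E (P.D.ch h') t - P.E (P.D.ch h') t * P.E (P.D.ch h) t)
    (fun i => jac (E_A' hh t i) (E_A' hh' t i) (by
      have h1 := key_rt (P := P) hh hh' t (P.D.al_mem i)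
      rw [neg_mul, mul_neg, neg_mul, mul_neg, ← neg_sub', ← neg_sub', h1]))
    (fun b hb => jac (E_Aθ (lab_ch hh) hb ht) (E_Aθ (lab_ch hh') hb ht)
      (key_rt hh hh' t hb.mem))
  have h1 := congrArg Matrix.trace hk
  rw [Matrix.trace_sub, Matrix.trace_mul_comm, sub_self, Matrix.trace_smul, Matrix.trace_one,
    smul_eq_mul] at h1
  have h2 : ((Fintype.card P.X : ℕ) : ℂ) ≠ 0 := by
    rw [Nat.cast_ne_zero]
    exact (Fintype.card_pos_iff.2 ⟨P.one⟩).ne'
  have h3 : k = 0 := by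
    rcases mul_eq_zero.1 h1.symm with h4 | h4
    · exact h4
    · exact absurd h4 h2
  rw [h3, zero_smul] at hk
  exact sub_eq_zero.1 hk

theorem Cq_comm {h h' t : Fin r → ℂ} (hh : P.Inv h) (hh' : P.Inv h') (ht : P.Inv t)
    (y : Fin r → ℂ) :
    P.Cq h t y * P.Cq h' t y = P.Cq h' t y * P.Cq h t y := by
  have h1 := key (P := P) (h := h) (h' := h') (F := fun u => P.D.hv h u.1 y)
    (F' := fun u => P.D.hv h' u.1 y)
    (κ := fun w a => -pr (P.D.rt w.1 a) y) t (fun w a ha => by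
      rw [hv_fl hh, hv_mul_refl h y w.1 (pos_mem ha)]
      ring) (fun w a ha => by
      rw [hv_fl hh', hv_mul_refl h' y w.1 (pos_mem ha)]
      ring)
  have h2 := E_comm (P := P) hh hh' ht
  have h3 : Matrix.diagonal (fun u : P.X => P.D.hv h u.1 y) *
      Matrix.diagonal (fun u : P.X => P.D.hv h' u.1 y) =
      Matrix.diagonal (fun u : P.X => P.D.hv h' u.1 y) *
        Matrix.diagonal (fun u : P.X => P.D.hv h u.1 y) := by
    rw [Matrix.diagonal_mul_diagonal, Matrix.diagonal_mul_diagonal]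
    congr 1
    funext u
    rw [mul_comm]
  unfold Cq
  generalize Matrix.diagonal (fun u : P.X => P.D.hv h u.1 y) = H at h1 h3 ⊢
  generalize Matrix.diagonal (fun u : P.X => P.D.hv h' u.1 y) = H' at h1 h3 ⊢
  generalize P.E (P.D.ch h) t = E at h1 h2 ⊢
  generalize P.E (P.D.ch h') t = E' at h1 h2 ⊢
  rw [← sub_eq_zero] at h1 h2 h3 ⊢
  calc (E - H) * (E' - H') - (E' - H') * (E - H) =
      (E * E' - E' * E) + (H * H' - H' * H) - ((H * E' - E' * H) - (H' * E - E * H')) := by noncomm_ring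
    _ = 0 := by rw [h1, h2, h3]; simp

end Pool.Agent.FLG.Par
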