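import Pool.Agent.FLG.G.Core

/-!
# FLG-PG-Cyc: lifting cyclic vectors
-/

set_option autoImplicit false

open scoped BigOperators

namespace Pool.Agent.FLG.G

variable {ι κ : Type*} [Fintype ι] [DecidableEq ι] [Fintype κ] [DecidableEq κ]

omit [Fintype κ] [DecidableEq κ] in
theorem AA_map {R R' : Type*} [CommRing R] [CommRing R'] (φ : R →+* R')
    {E : κ → Matrix ι ι R} {P : Matrix ι ι R} (hP : P ∈ AA E) :
    P.map φ ∈ AA fun k => (E k).map φ := by
  unfold AA at hP
  induction hP using Algebra.adjoin_induction with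
  | mem x hx =>
    obtain ⟨k, rfl⟩ := hx
    exact Algebra.subset_adjoin ⟨k, rfl⟩
  | algebraMap r =>
    have h1 : (algebraMap R (Matrix ι ι R) r).map φ = algebraMap R' (Matrix ι ι R') (φ r) := by
      rw [Matrix.algebraMap_eq_diagonal, Matrix.algebraMap_eq_diagonal, Matrix.diagonal_map (map_zero _)]
      rfl
    rw [h1]
    exact Subalgebra.algebraMap_mem _ _
  | add x y _ _ hx hy =>
    rw [Matrix.map_add _ (map_add _)]
    exact Subalgebra.add_mem _ hx hy
  | mul x y _ _ hx hy =>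
    rw [Matrix.map_mul]
    exact Subalgebra.mul_mem _ hx hy

omit [Fintype κ] [DecidableEq κ] in
theorem AA_lift {R R' : Type*} [CommRing R] [CommRing R'] {φ : R →+* R'}
    (hφ : Function.Surjective φ) {E : κ → Matrix ι ι R} {P : Matrix ι ι R'}
    (hP : P ∈ AA fun k => (E k).map φ) : ∃ Q ∈ AA E, Q.map φ = P := by
  unfold AA at hP
  induction hP using Algebra.adjoin_induction with
  | mem x hx =>
    obtain ⟨k, rfl⟩ := hx
    exact ⟨E k, Algebra.subset_adjoin ⟨k, rfl⟩, rfl⟩
  | algebraMap r =>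
    obtain ⟨s, rfl⟩ := hφ r
    refine ⟨algebraMap R (Matrix ι ι R) s, Subalgebra.algebraMap_mem _ _, ?_⟩
    rw [Matrix.algebraMap_eq_diagonal, Matrix.algebraMap_eq_diagonal, Matrix.diagonal_map (map_zero _)]
    rfl
  | add x y _ _ hx hy =>
    obtain ⟨a, ha, ha'⟩ := hx
    obtain ⟨b, hb, hb'⟩ := hy
    exact ⟨a + b, Subalgebra.add_mem _ ha hb, by rw [Matrix.map_add _ (map_add _), ha', hb']⟩
  | mul x y _ _ hx hy =>
    obtain ⟨a, ha, ha'⟩ := hx
    obtain ⟨b, hb, hb'⟩ := hy
    exact ⟨a * b, Subalgebra.mul_mem _ ha hb, by rw [Matrix.map_mul, ha', hb']⟩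

omit [Fintype κ] [DecidableEq κ] in
/-- a matrix of cyclic vectors with invertible determinant -/
theorem cyc_of_det {R : Type*} [CommRing R] {E : κ → Matrix ι ι R} {e : ι}
    {Q : ι → Matrix ι ι R} (hQ : ∀ w, Q w ∈ AA E)
    (h : IsUnit (Matrix.of fun w v => Q v w e).det) : IsCyc E e := by
  intro x
  set B : Matrix ι ι R := Matrix.of fun w v => Q v w e with hB
  have h1 : B * B⁻¹ = 1 := Matrix.mul_nonsing_inv B h
  refine ⟨∑ v, (B⁻¹.mulVec x) v • Q v,
    Subalgebra.sum_mem _ fun v _ => Subalgebra.smul_mem _ (hQ v) _, fun w => ?_⟩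
  have h2 : (∑ v, (B⁻¹.mulVec x) v • Q v) w e = (B.mulVec (B⁻¹.mulVec x)) w := by
    rw [Matrix.sum_apply, Matrix.mulVec, dotProduct]
    refine Finset.sum_congr rfl fun v _ => ?_
    rw [Matrix.smul_apply, smul_eq_mul, mul_comm]
    rfl
  rw [h2, Matrix.mulVec_mulVec, h1, Matrix.one_mulVec]

omit [Fintype κ] [DecidableEq κ] in
theorem cyc_lift {R R' : Type*} [CommRing R] [CommRing R'] {φ : R →+* R'}
    (hφ : Function.Surjective φ) {E : κ → Matrix ι ι R} {e : ι}
    (h : IsCyc (fun k => (E k).map φ) e) :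
    ∃ Q : ι → Matrix ι ι R, (∀ w, Q w ∈ AA E) ∧ φ (Matrix.of fun w v => Q v w e).det = 1 := by
  have h1 : ∀ v : ι, ∃ Q ∈ AA E, ∀ w, φ (Q w e) = (Pi.single v 1 : ι → R') w := by
    intro v
    obtain ⟨P, hP, hPv⟩ := h (Pi.single v 1)
    obtain ⟨Q, hQ, hQP⟩ := AA_lift hφ hP
    refine ⟨Q, hQ, fun w => ?_⟩
    rw [← hPv w, ← hQP, Matrix.map_apply]
  choose Q hQ hQv using h1
  refine ⟨Q, hQ, ?_⟩
  rw [RingHom.map_det]
  have h2 : φ.mapMatrix (Matrix.of fun w v => Q v w e) = 1 := by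
    ext w v
    rw [RingHom.mapMatrix_apply, Matrix.map_apply, Matrix.of_apply, hQv, Matrix.one_apply,
      Pi.single_apply]
  rw [h2, Matrix.det_one]

omit [Fintype κ] [DecidableEq κ] in
/-- from `s = 0` to power series in `s` -/
theorem cyc_series {K : Type*} [Field K] {E : κ → Matrix ι ι (PowerSeries K)} {e : ι}
    (h : IsCyc (fun k => (E k).map (PowerSeries.constantCoeff (R := K))) e) : IsCyc E e := by
  obtain ⟨Q, hQ, h1⟩ := cyc_lift (φ := PowerSeries.constantCoeff (R := K))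
    (fun a => ⟨PowerSeries.C a, PowerSeries.constantCoeff_C a⟩) h
  refine cyc_of_det hQ ?_
  rw [PowerSeries.isUnit_iff_constantCoeff, h1]
  exact isUnit_one

omit [Fintype κ] [DecidableEq κ] in
/-- from one point to the field of fractions -/
theorem cyc_frac {O R' : Type*} [CommRing O] [IsDomain O] [CommRing R'] [Nontrivial R']
    {φ : O →+* R'} (hφ : Function.Surjective φ) {E : κ → Matrix ι ι O} {e : ι}
    (h : IsCyc (fun k => (E k).map φ) e) :
    IsCyc (fun k => (E k).map (algebraMap O (FractionRing O))) e := by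
  obtain ⟨Q, hQ, h1⟩ := cyc_lift hφ h
  refine cyc_of_det (Q := fun w => (Q w).map (algebraMap O (FractionRing O)))
    (fun w => AA_map _ (hQ w)) ?_
  have h2 : (Matrix.of fun w v => (Q v).map (algebraMap O (FractionRing O)) w e) =
      (algebraMap O (FractionRing O)).mapMatrix (Matrix.of fun w v => Q v w e) := rfl
  rw [h2, ← RingHom.map_det, isUnit_iff_ne_zero]
  intro h3
  have h4 : (Matrix.of fun w v => Q v w e).det = 0 := by
    apply IsFractionRing.injective O (FractionRing O)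
    rw [h3, map_zero]
  rw [h4, map_zero] at h1
  exact zero_ne_one h1

end Pool.Agent.FLG.G
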