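import Pool.Agent.FLG.G.OO

/-!
# FLG-PG-Frac: derivations of the field of fractions
-/

set_option autoImplicit false

open scoped BigOperators

namespace Pool.Agent.FLG.G

variable {O : Type*} [CommRing O] [IsDomain O] [Algebra ℂ O]

/-- the pair `(a, δ a)` -/
private noncomputable def fr (δ : Derivation ℂ O O) :
    O →+* TrivSqZeroExt (FractionRing O) (FractionRing O) where
  toFun a := TrivSqZeroExt.inl (algebraMap O (FractionRing O) a) +
    TrivSqZeroExt.inr (algebraMap O (FractionRing O) (δ a))
  map_one' := by
    rw [Derivation.map_one_eq_zero, map_one, map_zero, TrivSqZeroExt.inr_zero, add_zero,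
      TrivSqZeroExt.inl_one]
  map_mul' a b := by
    ext
    · simp
    · simp only [TrivSqZeroExt.snd_add, TrivSqZeroExt.snd_inl, TrivSqZeroExt.snd_inr, zero_add,
        TrivSqZeroExt.snd_mul, TrivSqZeroExt.fst_add, TrivSqZeroExt.fst_inl, TrivSqZeroExt.fst_inr,
        add_zero, Derivation.leibniz, map_add, map_mul, smul_eq_mul, MulOpposite.smul_eq_mul_unop,
        MulOpposite.unop_op]
      ring
  map_zero' := by
    rw [map_zero, map_zero, map_zero, TrivSqZeroExt.inr_zero, add_zero, TrivSqZeroExt.inl_zero]
  map_add' a b := by
    ext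
    · simp
    · rw [map_add δ, map_add (algebraMap O (FractionRing O)) (δ a)]
      simp only [TrivSqZeroExt.snd_add, TrivSqZeroExt.snd_inl, TrivSqZeroExt.snd_inr, zero_add]

omit [IsDomain O] in
private theorem fr_unit (δ : Derivation ℂ O O) (y : nonZeroDivisors O) : IsUnit (fr δ y) := by
  rw [TrivSqZeroExt.isUnit_iff_isUnit_fst]
  have h1 : (fr δ y).fst = algebraMap O (FractionRing O) y := by
    show (TrivSqZeroExt.inl (algebraMap O (FractionRing O) (y : O)) +
      TrivSqZeroExt.inr (algebraMap O (FractionRing O) (δ y)) :
        TrivSqZeroExt (FractionRing O) (FractionRing O)).fst = _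
    simp
  rw [h1]
  exact IsLocalization.map_units (FractionRing O) y

theorem exists_dK (δ : Derivation ℂ O O) :
    ∃ δ' : Derivation ℂ (FractionRing O) (FractionRing O), ∀ a,
      δ' (algebraMap O (FractionRing O) a) = algebraMap O (FractionRing O) (δ a) := by
  obtain ⟨g, hg⟩ : ∃ g : FractionRing O →+* TrivSqZeroExt (FractionRing O) (FractionRing O),
      ∀ a, g (algebraMap O (FractionRing O) a) = fr δ a :=
    ⟨IsLocalization.lift (fr_unit δ), fun a => IsLocalization.lift_eq (fr_unit δ) a⟩
  have h1 : ∀ x, (g x).fst = x := by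
    intro x
    have h2 : ((TrivSqZeroExt.fstHom (FractionRing O) (FractionRing O) (FractionRing O) :
        TrivSqZeroExt (FractionRing O) (FractionRing O) →ₐ[FractionRing O] FractionRing O) :
          TrivSqZeroExt (FractionRing O) (FractionRing O) →+* FractionRing O).comp g =
        RingHom.id (FractionRing O) := by
      refine IsLocalization.ringHom_ext (nonZeroDivisors O) ?_
      refine RingHom.ext fun a => ?_
      rw [RingHom.comp_apply, RingHom.comp_apply, hg]
      show (TrivSqZeroExt.inl (algebraMap O (FractionRing O) a) +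
        TrivSqZeroExt.inr (algebraMap O (FractionRing O) (δ a)) :
          TrivSqZeroExt (FractionRing O) (FractionRing O)).fst = _
      simp
    exact congrArg (fun f : FractionRing O →+* FractionRing O => f x) h2
  have h2 : ∀ a, (g (algebraMap O (FractionRing O) a)).snd =
      algebraMap O (FractionRing O) (δ a) := by
    intro a
    rw [hg]
    show (TrivSqZeroExt.inl (algebraMap O (FractionRing O) a) +
        TrivSqZeroExt.inr (algebraMap O (FractionRing O) (δ a)) :
          TrivSqZeroExt (FractionRing O) (FractionRing O)).snd = _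
    rw [TrivSqZeroExt.snd_add, TrivSqZeroExt.snd_inl, TrivSqZeroExt.snd_inr, zero_add]
  have h3 : ∀ x y, (g (x * y)).snd = x * (g y).snd + y * (g x).snd := by
    intro x y
    rw [map_mul, TrivSqZeroExt.snd_mul, h1, h1, smul_eq_mul, MulOpposite.smul_eq_mul_unop,
      MulOpposite.unop_op]
    ring
  have h4 : ∀ c : ℂ, (g (algebraMap ℂ (FractionRing O) c)).snd = 0 := by
    intro c
    rw [IsScalarTower.algebraMap_apply ℂ O (FractionRing O), h2, Derivation.map_algebraMap,
      map_zero]
  refine ⟨Derivation.mk'
    { toFun := fun x => (g x).snd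
      map_add' := fun x y => by rw [map_add, TrivSqZeroExt.snd_add]
      map_smul' := fun c x => by
        rw [Algebra.smul_def, h3, h4, mul_zero, add_zero, RingHom.id_apply, Algebra.smul_def] }
    (fun x y => by
      show (g (x * y)).snd = x • (g y).snd + y • (g x).snd
      rw [h3, smul_eq_mul, smul_eq_mul]), fun a => h2 a⟩

/-- the extension of a derivation to the field of fractions -/
noncomputable def dK (δ : Derivation ℂ O O) : Derivation ℂ (FractionRing O) (FractionRing O) :=
  (exists_dK δ).choose

theorem dK_alg (δ : Derivation ℂ O O) (a : O) :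
    dK δ (algebraMap O (FractionRing O) a) = algebraMap O (FractionRing O) (δ a) :=
  (exists_dK δ).choose_spec a

end Pool.Agent.FLG.G
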