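import Pool.Agent.FLG.PG.Main

/-!
# FLG-PG-Gen: generation by divisors, classical and quantum
-/

set_option autoImplicit false

open scoped BigOperators
open Pool.Agent.DST.TE

namespace Pool.Agent.FLG.Par

open RS Pool.Agent.FLG.G

variable {r : ℕ} {P : Par r}

/-- The products of divisors span: every subspace which contains the unit and is stable under the
operators `F h` is everything. -/
def Span (P : Par r) (F : (Fin r → ℂ) → Matrix P.X P.X ℂ) : Prop :=
  ∀ S : Submodule ℂ (P.X → ℂ), Pi.single P.one 1 ∈ S →
    (∀ h, P.Inv h → ∀ x ∈ S, (F h).mulVec x ∈ S) → S = ⊤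

theorem E_sum {m : ℕ} (c : Fin m → ℂ) (b : Fin m → Fin r → ℂ) (t : Fin r → ℂ) :
    P.E (P.D.ch (∑ k, c k • b k)) t = ∑ k, c k • P.E (P.D.ch (b k)) t := by
  ext u w
  rw [Matrix.sum_apply]
  unfold Par.E
  simp only [Matrix.smul_apply, Matrix.of_apply, smul_eq_mul, Finset.mul_sum]
  rw [Finset.sum_comm]
  refine Finset.sum_congr rfl fun a _ => ?_
  by_cases hu : u = P.fl (w.1 * P.D.refl a)
  · simp only [if_pos hu]
    rw [ch_sum, Finset.sum_mul]
    exact Finset.sum_congr rfl fun j _ => by ring
  · simp only [if_neg hu, mul_zero, Finset.sum_const_zero]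

theorem gen_of_span {m : ℕ} (n : P.Bas m) {t : Fin r → ℂ} (ht : P.Inv t)
    (h : P.Span fun h => P.E (P.D.ch h) t) : n.Gen := by
  obtain ⟨τ, rfl⟩ := n.T_surj ht
  refine ⟨τ, ?_⟩
  set E : Fin m → Matrix P.X P.X ℂ := fun k => P.E (P.D.ch (n.b k)) (n.T τ) with hE
  have h1 := h
    { carrier := {x | ∃ Q ∈ AA E, ∀ w, Q w P.one = x w}
      add_mem' := by
        rintro x y ⟨Q, hQ, hQx⟩ ⟨R, hR, hRy⟩
        exact ⟨Q + R, add_mem hQ hR, fun w => by rw [Matrix.add_apply, hQx, hRy, Pi.add_apply]⟩
      zero_mem' := ⟨0, zero_mem _, fun w => rfl⟩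
      smul_mem' := by
        rintro c x ⟨Q, hQ, hQx⟩
        exact ⟨c • Q, Subalgebra.smul_mem _ hQ c, fun w => by
          rw [Matrix.smul_apply, hQx, Pi.smul_apply]⟩ }
    ⟨1, one_mem _, fun w => by rw [Matrix.one_apply, Pi.single_apply]⟩
    (by
      rintro g hg x ⟨Q, hQ, hQx⟩
      obtain ⟨c, rfl⟩ := n.span g hg
      have hEk : ∀ k, E k ∈ AA E := fun k => Algebra.subset_adjoin ⟨k, rfl⟩
      refine ⟨(∑ k, c k • E k) * Q, mul_mem (sum_mem fun k _ =>
        Subalgebra.smul_mem _ (hEk k) _) hQ, fun w => ?_⟩
      have h2 : (fun h => P.E (P.D.ch h) (n.T τ)) (∑ k, c k • n.b k) = ∑ k, c k • E k :=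
        E_sum c n.b _
      rw [h2, Matrix.mul_apply, Matrix.mulVec, dotProduct]
      exact Finset.sum_congr rfl fun v _ => by rw [hQx])
  intro x
  have h2 : x ∈ (⊤ : Submodule ℂ (P.X → ℂ)) := Submodule.mem_top
  rw [← h1] at h2
  exact h2

private theorem E_low {c : (Fin r → ℤ) → ℂ} {t : Fin r → ℂ} {u w : P.X}
    (h : P.len w.1 < P.len u.1) : P.E c t u w = P.E0 c u w := by
  unfold Par.E E0
  rw [Matrix.of_apply, Matrix.of_apply]
  refine Finset.sum_congr rfl fun a ha => ?_
  have h2 : ¬ ((P.len u.1 : ℤ) + P.L a = P.len w.1 + 1) := by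
    have h3 := two_le_L ha
    omega
  rw [if_neg h2, add_zero]
  by_cases hu : u = P.fl (w.1 * P.D.refl a)
  · by_cases hl : P.len u.1 = P.len w.1 + 1
    · rw [if_pos hu, if_pos hl, if_pos ⟨hu, hl⟩, mul_one]
    · rw [if_pos hu, if_neg hl, if_neg (fun h' => hl h'.2), mul_zero]
  · rw [if_neg hu, if_neg (fun h' => hu h'.1)]

private theorem E_high {c : (Fin r → ℤ) → ℂ} {t : Fin r → ℂ} {u w : P.X}
    (h : P.len w.1 + 1 < P.len u.1) : P.E c t u w = 0 := by
  rw [E_low (by omega)]
  by_contra h1
  have h2 := E0_ne h1
  omega

/-- the part of degree `d` -/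
private noncomputable def part (d : ℕ) (x : P.X → ℂ) : P.X → ℂ :=
  fun w => if P.len w.1 = d then x w else 0

/-- the vectors supported in degrees `≤ d` lie in `S` -/
theorem span_of_span0 (h : P.Span fun h => P.E0 (P.D.ch h)) (t : Fin r → ℂ) :
    P.Span fun h => P.E (P.D.ch h) t := by
  intro S h1 hS
  -- decomposition of the classical cohomology
  have hdec : ∀ x : P.X → ℂ, x ∈ Submodule.span ℂ {(Pi.single P.one 1 : P.X → ℂ)} ⊔
      ⨆ g : {g : Fin r → ℂ // P.Inv g}, LinearMap.range (Matrix.mulVecLin (P.E0 (P.D.ch g.1))) := by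
    intro x
    have h2 := h (Submodule.span ℂ {(Pi.single P.one 1 : P.X → ℂ)} ⊔
      ⨆ g : {g : Fin r → ℂ // P.Inv g}, LinearMap.range (Matrix.mulVecLin (P.E0 (P.D.ch g.1))))
      (Submodule.mem_sup_left (Submodule.mem_span_singleton_self _))
      (fun g hg x _ => Submodule.mem_sup_right (Submodule.mem_iSup_of_mem ⟨g, hg⟩ ⟨x, rfl⟩))
    rw [h2]
    exact Submodule.mem_top
  have key : ∀ d : ℕ, ∀ x : P.X → ℂ, (∀ w, d < P.len w.1 → x w = 0) → x ∈ S := by
    intro d
    induction d with
    | zero =>
      intro x hx
      have h2 : x = x P.one • (Pi.single P.one 1 : P.X → ℂ) := by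
        funext w
        rw [Pi.smul_apply, Pi.single_apply, smul_eq_mul]
        by_cases hw : w = P.one
        · rw [if_pos hw, hw, mul_one]
        · rw [if_neg hw, mul_zero]
          refine hx w (Nat.pos_of_ne_zero fun h3 => hw ?_)
          rw [len_val] at h3
          exact Subtype.ext (eq_one_of_len h3)
      rw [h2]
      exact S.smul_mem _ h1
    | succ d ih =>
      -- the top component
      have htop : ∀ y ∈ Submodule.span ℂ {(Pi.single P.one 1 : P.X → ℂ)} ⊔
          ⨆ g : {g : Fin r → ℂ // P.Inv g}, LinearMap.range (Matrix.mulVecLin (P.E0 (P.D.ch g.1))),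
          part (d + 1) y ∈ S := by
        intro y hy
        obtain ⟨a, ha, b, hb, rfl⟩ := Submodule.mem_sup.1 hy
        have hadd : ∀ x y : P.X → ℂ, part (d + 1) (x + y) = part (d + 1) x + part (d + 1) y := by
          intro x y
          funext w
          unfold part
          rw [Pi.add_apply, Pi.add_apply]
          split_ifs
          · rfl
          · rw [add_zero]
        rw [hadd]
        refine S.add_mem ?_ ?_
        · obtain ⟨c, rfl⟩ := Submodule.mem_span_singleton.1 ha
          have h2 : part (d + 1) (c • (Pi.single P.one 1 : P.X → ℂ)) = 0 := by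
            funext w
            unfold part
            by_cases hw : w = P.one
            · have h3 : P.len w.1 = 0 := by
                rw [hw, len_val]
                exact len_one
              rw [if_neg (by omega)]
              rfl
            · rw [Pi.smul_apply, Pi.single_eq_of_ne hw, smul_zero, ite_self]
              rfl
          rw [h2]
          exact S.zero_mem
        · refine Submodule.iSup_induction _ (motive := fun x => part (d + 1) x ∈ S) hb ?_ ?_ ?_
          · rintro ⟨g, hg⟩ _ ⟨z, rfl⟩
            rw [Matrix.mulVecLin_apply]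
            -- `part (d + 1) (E0 z) = E0 (part d z)`
            have h2 : part (d + 1) ((P.E0 (P.D.ch g)).mulVec z) =
                (P.E0 (P.D.ch g)).mulVec (part d z) := by
              funext w
              unfold part
              rw [Matrix.mulVec, dotProduct, Matrix.mulVec, dotProduct]
              by_cases hw : P.len w.1 = d + 1
              · rw [if_pos hw]
                refine Finset.sum_congr rfl fun v _ => ?_
                by_cases hv : P.len v.1 = d
                · rw [if_pos hv]
                · rw [if_neg hv, mul_zero]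
                  by_contra h3
                  have h4 := E0_ne (left_ne_zero_of_mul h3)
                  omega
              · rw [if_neg hw]
                symm
                refine Finset.sum_eq_zero fun v _ => ?_
                by_cases hv : P.len v.1 = d
                · by_contra h3
                  have h4 := E0_ne (left_ne_zero_of_mul h3)
                  omega
                · rw [if_neg hv, mul_zero]
            rw [h2]
            have h3 : part d z ∈ S := ih _ fun w hw => by
              unfold part
              rw [if_neg (by omega)]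
            have h4 := hS g hg _ h3
            have h5 : (P.E0 (P.D.ch g)).mulVec (part d z) =
                (P.E (P.D.ch g) t).mulVec (part d z) -
                  ((P.E (P.D.ch g) t).mulVec (part d z) - (P.E0 (P.D.ch g)).mulVec (part d z)) := by
              abel
            rw [h5]
            refine S.sub_mem h4 (ih _ fun w hw => ?_)
            rw [Pi.sub_apply, Matrix.mulVec, dotProduct, Matrix.mulVec, dotProduct,
              ← Finset.sum_sub_distrib]
            refine Finset.sum_eq_zero fun v _ => ?_
            by_cases hv : P.len v.1 = d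
            · rw [E_low (by omega), sub_self]
            · unfold part
              rw [if_neg hv, mul_zero, mul_zero, sub_zero]
          · have h2 : part (d + 1) (0 : P.X → ℂ) = 0 := by
              funext w
              unfold part
              exact ite_self _
            rw [h2]
            exact S.zero_mem
          · intro x y hx hy
            rw [hadd]
            exact S.add_mem hx hy
      intro x hx
      have h2 : x = part (d + 1) x + (x - part (d + 1) x) := by abel
      rw [h2]
      refine S.add_mem (htop x (hdec x)) (ih _ fun w hw => ?_)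
      rw [Pi.sub_apply]
      unfold part
      by_cases h3 : P.len w.1 = d + 1
      · rw [if_pos h3, sub_self]
      · rw [if_neg h3, sub_zero]
        exact hx w (by omega)
  rw [eq_top_iff]
  intro x _
  exact key (∑ w : P.X, P.len w.1) x fun w hw => by
    have h2 := Finset.single_le_sum (f := fun w : P.X => P.len w.1) (fun _ _ => Nat.zero_le _)
      (Finset.mem_univ w)
    beta_reduce at h2
    omega

/-- Generic semisimplicity with distinct eigenvalues: if the divisors generate the quantum
cohomology at one point of `H^2(G/P)`, then the eigenvalues of `c_1` are pairwise distinct on a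
dense subset of `H^2(G/P)`. -/
theorem dense_of_span {t₀ : Fin r → ℂ} (ht₀ : P.Inv t₀)
    (h : P.Span fun h => P.E (P.D.ch h) t₀) {t : Fin r → ℂ} (ht : P.Inv t)
    {U : Set (Fin r → ℂ)} (hU : U ∈ nhds t) :
    ∃ t' ∈ U, P.Inv t' ∧ (P.E (P.D.ch P.ctr) t').charpoly.Separable := by
  obtain ⟨m, ⟨n⟩⟩ := exists_bas P
  exact Bas.dense_sep (gen_of_span n ht₀ h) ht hU

/-- the same if the divisors generate the classical cohomology -/
theorem dense_of_span0 (h : P.Span fun h => P.E0 (P.D.ch h)) {t : Fin r → ℂ} (ht : P.Inv t)
    {U : Set (Fin r → ℂ)} (hU : U ∈ nhds t) :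
    ∃ t' ∈ U, P.Inv t' ∧ (P.E (P.D.ch P.ctr) t').charpoly.Separable :=
  dense_of_span ht (span_of_span0 h t) ht hU

end Pool.Agent.FLG.Par
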