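import Pool.Agent.FLG.PG.Mat
import Pool.Agent.FLG.PG.TGen
import Pool.Agent.FLG.PG.Abs
import Pool.Agent.FLG.PG.Frac

/-!
# FLG-PG-Main: generically the eigenvalues of `c_1` are pairwise distinct if the divisors generate
-/

set_option autoImplicit false

open scoped BigOperators
open Pool.Agent.DST.TE

namespace Pool.Agent.FLG.Par

open RS Pool.Agent.FLG.G

variable {r m : ℕ} {P : Par r} {n : P.Bas m}

namespace Bas

private theorem gm_tr {R R' ι : Type*} [CommRing R] [CommRing R'] [Fintype ι] (φ : R →+* R')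
    (M : Matrix ι ι R) : φ M.trace = (M.map φ).trace := by
  unfold Matrix.trace
  rw [map_sum]
  rfl

private theorem gm_trE (s : ℂ) (τ : Fin m → ℂ) (M : Matrix P.X P.X (Polynomial (OO m))) :
    ev s τ M.trace = (M.map (ev s τ)).trace := gm_tr (ev s τ) M

private theorem gm_deriv (ν : Fin r → ℤ) (h : Fin r → ℂ) (s : ℂ) (τ : Fin m → ℂ) :
    ((n.EP ν h).map Polynomial.derivative).map (ev s τ) =
      -Matrix.diagonal fun u : P.X => P.D.hv h u.1 (cc ν) := by
  rw [EP_deriv]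
  ext u w
  rw [Matrix.map_apply, Matrix.neg_apply, Matrix.neg_apply]
  have e0 : ∀ x : Polynomial (OO m), ev s τ (-x) = -ev s τ x := fun x => map_neg _ x
  rw [e0]
  congr 1
  by_cases huw : u = w
  · subst huw
    rw [Matrix.diagonal_apply_eq, Matrix.diagonal_apply_eq]
    unfold ev
    rw [Polynomial.coe_eval₂RingHom, Polynomial.eval₂_C]
    rfl
  · rw [Matrix.diagonal_apply_ne _ huw, Matrix.diagonal_apply_ne _ huw, map_zero]

/-- the intertwiner of a translation in the coordinates `τ` -/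
theorem exists_SB (n : P.Bas m) (ν : Fin r → ℤ) :
    ∃ S S' : Matrix P.X P.X (Polynomial (OO m)),
    S * S' = 1 ∧ ∀ (s : ℂ) (τ : Fin m → ℂ), ∃ S1 : Matrix P.X P.X ℂ, ∀ k : Fin m,
      P.Cq (n.b k) (n.T τ) (fun i => s * (ν i : ℂ)) * S.map (ev s τ) =
        S.map (ev s τ) * P.Cq (n.b k) (n.T τ) (fun i => s * (ν i : ℂ)) ∧
      (S.map (PD (dO (Pi.single k 1)))).map (ev s τ) =
        P.Cq (n.b k) (n.T τ) (fun i => s * (ν i : ℂ)) * S1 -
          S1 * P.Cq (n.b k) (n.T τ) (fun i => s * (ν i : ℂ)) +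
          S.map (ev s τ) * Matrix.diagonal fun u : P.X => P.D.hv (n.b k) u.1 (cc ν) := by
  obtain ⟨S, S', hSS, hS⟩ := exists_S P ν
  refine ⟨S.map (Polynomial.mapRingHom n.pb), S'.map (Polynomial.mapRingHom n.pb), ?_,
    fun s τ => ?_⟩
  · rw [← Matrix.map_mul, hSS, Matrix.map_one _ (map_zero _) (map_one _)]
  · obtain ⟨S1, hS1⟩ := hS s (n.T τ) (n.T_inv τ)
    refine ⟨S1, fun k => ?_⟩
    obtain ⟨h1, h2⟩ := hS1 (n.b k) (n.inv k)
    have h3 : (S.map (Polynomial.mapRingHom n.pb)).map (ev s τ) = S.map (ev s (n.T τ)) := by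
      ext1 u w
      exact n.ev_pb s τ (S u w)
    have h4 : ((S.map (Polynomial.mapRingHom n.pb)).map (PD (dO (Pi.single k 1)))).map (ev s τ) =
        (S.map (PD (dO (n.b k)))).map (ev s (n.T τ)) := by
      ext1 u w
      show ev s τ (PD (dO (Pi.single k 1)) ((S u w).map n.pb)) = ev s (n.T τ) (PD (dO (n.b k)) (S u w))
      rw [n.PD_pb, n.ev_pb]
    rw [h3, h4]
    exact ⟨h1, h2⟩

/-- the relations of the intertwiner -/
private def Rel (n : P.Bas m) (ν : Fin r → ℤ) (S : Matrix P.X P.X (Polynomial (OO m))) : Prop :=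
  ∀ (s : ℂ) (τ : Fin m → ℂ), ∃ S1 : Matrix P.X P.X ℂ, ∀ k : Fin m,
      P.Cq (n.b k) (n.T τ) (fun i => s * (ν i : ℂ)) * S.map (ev s τ) =
        S.map (ev s τ) * P.Cq (n.b k) (n.T τ) (fun i => s * (ν i : ℂ)) ∧
      (S.map (PD (dO (Pi.single k 1)))).map (ev s τ) =
        P.Cq (n.b k) (n.T τ) (fun i => s * (ν i : ℂ)) * S1 -
          S1 * P.Cq (n.b k) (n.T τ) (fun i => s * (ν i : ℂ)) +
          S.map (ev s τ) * Matrix.diagonal fun u : P.X => P.D.hv (n.b k) u.1 (cc ν)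

private theorem gm_rel {ν : Fin r → ℤ} {S : Matrix P.X P.X (Polynomial (OO m))}
    (h : Rel n ν S) (j : Fin m)
    {Q : Matrix P.X P.X (Polynomial (OO m))}
    (hQ : ∀ k, Q * n.EP ν (n.b k) = n.EP ν (n.b k) * Q) :
    (Q * S.map (PD (dO (Pi.single j 1)))).trace =
      -(Q * S * (n.EP ν (n.b j)).map Polynomial.derivative).trace := by
  apply ext_ev
  intro s τ
  obtain ⟨S1, hS1⟩ := h s τ
  obtain ⟨-, h2⟩ := hS1 j
  have q := congrArg (fun M => M.map (ev s τ)) (hQ j)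
  beta_reduce at q
  rw [Matrix.map_mul, Matrix.map_mul, ev_EP] at q
  have e0 : ∀ x : Polynomial (OO m), ev s τ (-x) = -ev s τ x := fun x => map_neg _ x
  rw [e0, gm_trE, gm_trE, Matrix.map_mul, Matrix.map_mul, Matrix.map_mul, gm_deriv, h2]
  generalize Q.map (ev s τ) = Q' at q ⊢
  generalize S.map (ev s τ) = S' at h2 ⊢
  generalize P.Cq (n.b j) (n.T τ) (fun i => s * (ν i : ℂ)) = C at q h2 ⊢
  have e1 : (Q' * (C * S1)).trace = (Q' * (S1 * C)).trace := by
    rw [← mul_assoc, q, ← mul_assoc, Matrix.trace_mul_comm (Q' * S1) C, mul_assoc]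
  rw [mul_add, mul_sub, Matrix.trace_add, Matrix.trace_sub, e1, sub_self, zero_add,
    mul_neg, Matrix.trace_neg, neg_neg, mul_assoc]

private theorem gm_dense {d : OO m} (hd : d ≠ 0) : Dense {τ : Fin m → ℂ | d.1 τ ≠ 0} := by
  rw [dense_iff_inter_open]
  intro U hU hne
  by_contra h
  obtain ⟨z, hz⟩ := hne
  apply hd
  apply OO.ext_fun
  have h1 : d.1 =ᶠ[nhds z] 0 := by
    filter_upwards [hU.mem_nhds hz] with t ht
    by_contra h2
    exact h ⟨t, ht, h2⟩
  have h0 : AnalyticOnNhd ℂ d.1 Set.univ := d.2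
  have h2 := h0.eqOn_zero_of_preconnected_of_eventuallyEq_zero isPreconnected_univ
    (Set.mem_univ z) h1
  intro t
  exact h2 (Set.mem_univ t)

private theorem EP_zero (ν : Fin r → ℤ) (h : Fin r → ℂ) :
    ((n.EP ν h).map fun p => p.coeff 0) = n.EO h := by
  ext1 u w
  rw [Matrix.map_apply, coeff_EP, if_pos rfl, if_neg Nat.zero_ne_one, sub_zero]

/-- the algebraic data -/
theorem exists_dat (n : P.Bas m) : ∃ d : Dat (OO m) P.X (Fin m), d.e = P.one ∧
    (∀ k, d.D k = dO (Pi.single k 1)) ∧ (∀ k, d.EO k = n.EO (n.b k)) ∧ d.CC = n.EO P.ctr := by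
  obtain ⟨ν, hν⟩ := exists_reg P
  obtain ⟨S, S', hSS, hS⟩ := exists_SB n ν
  obtain ⟨c, hc⟩ := n.span P.ctr inv_ctr
  have hEO : ∀ k, ((n.EP ν (n.b k)).map fun p => p.coeff 0) = n.EO (n.b k) :=
    fun k => EP_zero ν (n.b k)
  have hCC : ∑ k, algebraMap ℂ (OO m) (c k) • ((n.EP ν (n.b k)).map fun p => p.coeff 0) =
      n.EO P.ctr := by
    rw [hc, EO_sum]
    exact Finset.sum_congr rfl fun k _ => by rw [hEO]
  refine ⟨{ e := P.one
            D := fun k => dO (Pi.single k 1)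
            EP := fun k => n.EP ν (n.b k)
            comm := fun j k => EP_comm ν (n.inv j) (n.inv k)
            sym := fun j k => EP_sym ν j k
            S := S
            S' := S'
            inv := hSS
            commS := ?_
            rel := fun j Q hQ => gm_rel hS j hQ
            c := fun k => algebraMap ℂ (OO m) (c k)
            hank := ?_
            N := Matrix.diagonal fun w : P.X => ((P.len w.1 : ℕ) : OO m)
            euler := ?_ }, rfl, fun k => rfl, hEO, hCC⟩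
  · intro j
    ext1 u w
    apply ext_ev
    intro s τ
    obtain ⟨S1, hS1⟩ := hS s τ
    have h1 := (hS1 j).1
    rw [← ev_EP, ← Matrix.map_mul, ← Matrix.map_mul] at h1
    exact congrFun (congrFun h1 u) w
  · rw [← EP_sum, ← hc]
    exact hank_ne hν
  · intro k
    rw [hCC, hEO, EO_euler]

/-- the divisors generate the quantum cohomology at one point -/
def Gen (n : P.Bas m) : Prop :=
  ∃ τ : Fin m → ℂ, IsCyc (fun k => P.E (P.D.ch (n.b k)) (n.T τ)) P.one

private theorem evO_surj (τ : Fin m → ℂ) : Function.Surjective (evO τ) :=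
  fun c => ⟨algebraMap ℂ (OO m) c, rfl⟩

theorem exists_sep (hg : n.Gen) : ∃ d : OO m, d ≠ 0 ∧
    ∀ τ, d.1 τ ≠ 0 → (P.E (P.D.ch P.ctr) (n.T τ)).charpoly.Separable := by
  obtain ⟨D, he, hD, hE, hC⟩ := exists_dat n
  obtain ⟨τ₀, hτ₀⟩ := hg
  have hcyc : IsCyc (D.EK (FractionRing (OO m))) D.e := by
    refine cyc_frac (evO_surj τ₀) (E := D.EO) ?_
    rw [he]
    have h1 : (fun k => (D.EO k).map (evO τ₀)) = fun k => P.E (P.D.ch (n.b k)) (n.T τ₀) :=
      funext fun k => by rw [hE, evO_EO]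
    rw [h1]
    exact hτ₀
  have hsep := D.sep (D' := fun k => dK (D.D k)) (fun k a => dK_alg (D.D k) a) hcyc
  rw [hC] at hsep
  obtain ⟨d, hd, u, v, huv⟩ := exists_dvd hsep
  refine ⟨d, hd, fun τ ht => ?_⟩
  have h1 := congrArg (Polynomial.map (evO τ)) huv
  have h2 : (n.EO P.ctr).charpoly.map (evO τ) = (P.E (P.D.ch P.ctr) (n.T τ)).charpoly := by
    rw [← Matrix.charpoly_map, evO_EO]
  rw [Polynomial.map_add, Polynomial.map_mul, Polynomial.map_mul, ← Polynomial.derivative_map, h2,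
    Polynomial.map_C] at h1
  have h3 : evO τ d ≠ 0 := ht
  refine ⟨Polynomial.C (evO τ d)⁻¹ * u.map (evO τ), Polynomial.C (evO τ d)⁻¹ * v.map (evO τ), ?_⟩
  rw [mul_assoc, mul_assoc, ← mul_add, h1, ← Polynomial.C_mul, inv_mul_cancel₀ h3, Polynomial.C_1]

/-- If the divisors generate the quantum cohomology at one point of `H^2(G/P)`, then the eigenvalues
of `c_1` are pairwise distinct at the points of a dense subset of `H^2(G/P)`. -/
theorem dense_sep (hg : n.Gen) {t : Fin r → ℂ} (ht : P.Inv t) {U : Set (Fin r → ℂ)}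
    (hU : U ∈ nhds t) :
    ∃ t' ∈ U, P.Inv t' ∧ (P.E (P.D.ch P.ctr) t').charpoly.Separable := by
  obtain ⟨d, hd, h⟩ := exists_sep hg
  obtain ⟨τ, rfl⟩ := n.T_surj ht
  have h1 : n.TL ⁻¹' U ∈ nhds τ := by
    refine n.TL.continuous.continuousAt.preimage_mem_nhds ?_
    rw [n.TL_apply]
    exact hU
  obtain ⟨τ', h2, h3⟩ := mem_closure_iff_nhds.1 (gm_dense hd τ) _ h1
  refine ⟨n.T τ', ?_, n.T_inv τ', h τ' h3⟩
  have h4 : n.TL τ' ∈ U := h2
  rwa [n.TL_apply] at h4

end Bas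

end Pool.Agent.FLG.Par
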