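import Pool.Agent.FLG.PG.CommE
import Pool.Agent.FLG.PG.Bas
import Pool.Agent.FLG.G.Nd
import Pool.Agent.FLG.P.Num

/-!
# FLG-PG-Mat: the quantum products of `G/P` over `OO m`, `OO m [s]`
-/

set_option autoImplicit false

open scoped BigOperators
open Pool.Agent.DST.TE

namespace Pool.Agent.FLG.Par

open RS Pool.Agent.FLG.G

variable {r m : ℕ} {P : Par r} (n : P.Bas m)

namespace Bas

/-- the quantum product with `h` at `λ = 0` over the entire functions -/
noncomputable def EO (h : Fin r → ℂ) : Matrix P.X P.X (OO m) :=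
  Matrix.of fun u w => ∑ a ∈ P.Pos, if u = P.fl (w.1 * P.D.refl a) then P.D.ch h a •
      ((if P.len u.1 = P.len w.1 + 1 then (1 : OO m) else 0) +
        (if (P.len u.1 : ℤ) + P.L a = P.len w.1 + 1 then n.qB (P.D.co a) else 0)) else 0

/-- the quantum product with `h` at `λ = s ν` -/
noncomputable def EP (ν : Fin r → ℤ) (h : Fin r → ℂ) : Matrix P.X P.X (Polynomial (OO m)) :=
  Matrix.of fun u w => Polynomial.C (n.EO h u w) -
    if u = w then Polynomial.C (algebraMap ℂ (OO m) (P.D.hv h u.1 (cc ν))) * Polynomial.X else 0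

variable {n}

theorem evO_EO (h : Fin r → ℂ) (τ : Fin m → ℂ) :
    (n.EO h).map (evO τ) = P.E (P.D.ch h) (n.T τ) := by
  ext u w
  rw [Matrix.map_apply]
  unfold EO Par.E
  rw [Matrix.of_apply, Matrix.of_apply, map_sum]
  refine Finset.sum_congr rfl fun a _ => ?_
  split_ifs
  · rfl
  · rfl
  · rfl
  · rfl
  · rfl

private theorem gm_EO_ext {M N : Matrix P.X P.X (OO m)}
    (h : ∀ τ, M.map (evO τ) = N.map (evO τ)) : M = N := by
  ext1 u w
  refine OO.ext_fun fun τ => ?_
  exact congrFun (congrFun (h τ) u) w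

private theorem gm_ev_ext {M N : Matrix P.X P.X (Polynomial (OO m))}
    (h : ∀ s τ, M.map (ev s τ) = N.map (ev s τ)) : M = N := by
  ext1 u w
  refine ext_ev fun s τ => ?_
  exact congrFun (congrFun (h s τ) u) w

private theorem gm_evC' (s : ℂ) (τ : Fin m → ℂ) (f : OO m) : ev s τ (Polynomial.C f) = f.1 τ := by
  show Polynomial.eval₂ (evO τ) s (Polynomial.C f) = _
  rw [Polynomial.eval₂_C]
  rfl

private theorem gm_evX (s : ℂ) (τ : Fin m → ℂ) : ev s τ (Polynomial.X : Polynomial (OO m)) = s := by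
  show Polynomial.eval₂ (evO τ) s Polynomial.X = _
  rw [Polynomial.eval₂_X]

theorem ev_EP (ν : Fin r → ℤ) (h : Fin r → ℂ) (s : ℂ) (τ : Fin m → ℂ) :
    (n.EP ν h).map (ev s τ) = P.Cq h (n.T τ) (fun i => s * (ν i : ℂ)) := by
  ext u w
  have h0 : P.D.hv h u.1 (fun i => s * (ν i : ℂ)) = P.D.hv h u.1 (cc ν) * s := by
    have h1 : (fun i => s * (ν i : ℂ)) = s • cc ν := rfl
    unfold RS.hv
    rw [h1, P.D.yt_smul, Finset.sum_mul]
    refine Finset.sum_congr rfl fun j _ => ?_
    rw [Pi.smul_apply, smul_eq_mul]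
    ring
  rw [Matrix.map_apply]
  unfold EP Cq
  rw [Matrix.of_apply, Matrix.sub_apply, Matrix.diagonal_apply]
  have h1 := map_sub (ev s τ) (Polynomial.C (n.EO h u w))
    (if u = w then Polynomial.C (algebraMap ℂ (OO m) (P.D.hv h u.1 (cc ν))) * Polynomial.X else 0)
  refine h1.trans ?_
  rw [gm_evC']
  have h2 : (n.EO h u w).1 τ = P.E (P.D.ch h) (n.T τ) u w :=
    congrFun (congrFun (evO_EO (n := n) h τ) u) w
  rw [h2]
  congr 1
  by_cases huw : u = w
  · rw [if_pos huw, if_pos huw, map_mul, gm_evC', gm_evX, h0]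
    rfl
  · rw [if_neg huw, if_neg huw, map_zero]

theorem EP_comm (ν : Fin r → ℤ) {h h' : Fin r → ℂ} (hh : P.Inv h) (hh' : P.Inv h') :
    n.EP ν h * n.EP ν h' = n.EP ν h' * n.EP ν h := by
  refine gm_ev_ext fun s τ => ?_
  rw [Matrix.map_mul, Matrix.map_mul, ev_EP, ev_EP, Cq_comm hh hh' (n.T_inv τ)]

theorem EO_comm {h h' : Fin r → ℂ} (hh : P.Inv h) (hh' : P.Inv h') :
    n.EO h * n.EO h' = n.EO h' * n.EO h := by
  refine gm_EO_ext fun τ => ?_
  rw [Matrix.map_mul, Matrix.map_mul, evO_EO, evO_EO, E_comm hh hh' (n.T_inv τ)]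

private theorem gm_dEO (h : Fin r → ℂ) (k : Fin m) (u w : P.X) :
    dO (Pi.single k 1) (n.EO h u w) =
    ∑ a ∈ P.Pos, if u = P.fl (w.1 * P.D.refl a) then (P.D.ch h a * P.D.ch (n.b k) a) •
      (if (P.len u.1 : ℤ) + P.L a = P.len w.1 + 1 then n.qB (P.D.co a) else 0) else 0 := by
  unfold EO
  rw [Matrix.of_apply, map_sum]
  refine Finset.sum_congr rfl fun a _ => ?_
  by_cases hu : u = P.fl (w.1 * P.D.refl a)
  · rw [if_pos hu, if_pos hu, Derivation.map_smul, map_add]
    have h1 : dO (Pi.single k 1) (if P.len u.1 = P.len w.1 + 1 then (1 : OO m) else 0) = 0 := by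
      split_ifs
      · exact Derivation.map_one_eq_zero _
      · exact map_zero _
    rw [h1, zero_add]
    split_ifs
    · rw [n.dO_qB, smul_smul]
    · rw [map_zero, smul_zero, smul_zero]
  · rw [if_neg hu, if_neg hu, map_zero]

private theorem gm_sym (j k : Fin m) (u w : P.X) :
    dO (Pi.single j 1) (n.EO (n.b k) u w) = dO (Pi.single k 1) (n.EO (n.b j) u w) := by
  rw [gm_dEO, gm_dEO]
  refine Finset.sum_congr rfl fun a _ => ?_
  rw [mul_comm (P.D.ch (n.b k) a)]

theorem coeff_EP (ν : Fin r → ℤ) (h : Fin r → ℂ) (u w : P.X) (i : ℕ) :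
    (n.EP ν h u w).coeff i = (if i = 0 then n.EO h u w else 0) -
      (if i = 1 then (if u = w then algebraMap ℂ (OO m) (P.D.hv h u.1 (cc ν)) else 0) else 0) := by
  unfold EP
  rw [Matrix.of_apply, Polynomial.coeff_sub, Polynomial.coeff_C]
  congr 1
  by_cases huw : u = w
  · rw [if_pos huw, Polynomial.coeff_C_mul, Polynomial.coeff_X]
    by_cases hn : i = 1
    · rw [if_pos hn, if_pos huw, if_pos hn.symm, mul_one]
    · rw [if_neg hn, if_neg (fun h => hn h.symm), mul_zero]
  · rw [if_neg huw, Polynomial.coeff_zero, if_neg huw, ite_self]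

theorem EP_sym (ν : Fin r → ℤ) (j k : Fin m) :
    (n.EP ν (n.b k)).map (PD (dO (Pi.single j 1))) =
      (n.EP ν (n.b j)).map (PD (dO (Pi.single k 1))) := by
  ext1 u w
  rw [Matrix.map_apply, Matrix.map_apply]
  refine Polynomial.ext fun i => ?_
  rw [coeff_PD, coeff_PD, coeff_EP, coeff_EP, map_sub, map_sub]
  congr 1
  · split_ifs
    · exact gm_sym j k u w
    · rw [map_zero, map_zero]
  · split_ifs
    · rw [Derivation.map_algebraMap, Derivation.map_algebraMap]
    · rw [map_zero, map_zero]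
    · rw [map_zero, map_zero]

theorem EP_deriv (ν : Fin r → ℤ) (h : Fin r → ℂ) :
    (n.EP ν h).map Polynomial.derivative =
      -Matrix.diagonal fun u : P.X =>
        Polynomial.C (algebraMap ℂ (OO m) (P.D.hv h u.1 (cc ν))) := by
  ext1 u w
  refine Polynomial.ext fun i => ?_
  rw [Matrix.map_apply, Matrix.neg_apply, Matrix.diagonal_apply, Polynomial.coeff_derivative,
    coeff_EP]
  have e0 : ∀ p : Polynomial (OO m), (-p).coeff i = -(p.coeff i) := fun p =>
    Polynomial.coeff_neg p i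
  rw [if_neg (Nat.succ_ne_zero i)]
  have h1 := e0 (if u = w then Polynomial.C (algebraMap ℂ (OO m) (P.D.hv h u.1 (cc ν))) else 0)
  refine Eq.trans ?_ h1.symm
  by_cases huw : u = w
  · rw [if_pos huw, if_pos huw, Polynomial.coeff_C]
    by_cases hi : i = 0
    · subst hi
      simp
    · rw [if_neg (fun h => hi (by omega)), if_neg hi]
      simp
  · simp [huw]

theorem EO_sum (c : Fin m → ℂ) :
    n.EO (∑ k, c k • n.b k) = ∑ k, algebraMap ℂ (OO m) (c k) • n.EO (n.b k) := by
  refine gm_EO_ext fun τ => ?_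
  rw [evO_EO]
  ext u w
  rw [Matrix.map_apply, Matrix.sum_apply, map_sum]
  have h1 : ∀ k, evO τ ((algebraMap ℂ (OO m) (c k) • n.EO (n.b k)) u w) =
      c k * P.E (P.D.ch (n.b k)) (n.T τ) u w := by
    intro k
    rw [← evO_EO (n := n) (n.b k) τ]
    rfl
  rw [Finset.sum_congr rfl fun k _ => h1 k]
  unfold Par.E
  simp only [Matrix.of_apply, Finset.mul_sum]
  rw [Finset.sum_comm]
  refine Finset.sum_congr rfl fun a _ => ?_
  by_cases hu : u = P.fl (w.1 * P.D.refl a)
  · simp only [if_pos hu]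
    rw [ch_sum, Finset.sum_mul]
    exact Finset.sum_congr rfl fun j _ => by ring
  · simp only [if_neg hu, mul_zero, Finset.sum_const_zero]

theorem EP_sum (ν : Fin r → ℤ) (c : Fin m → ℂ) :
    n.EP ν (∑ k, c k • n.b k) =
      ∑ k, Polynomial.C (algebraMap ℂ (OO m) (c k)) • n.EP ν (n.b k) := by
  refine gm_ev_ext fun s τ => ?_
  rw [ev_EP]
  ext u w
  rw [Matrix.map_apply, Matrix.sum_apply, map_sum]
  have h1 : ∀ k, ev s τ ((Polynomial.C (algebraMap ℂ (OO m) (c k)) • n.EP ν (n.b k)) u w) =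
      c k * P.Cq (n.b k) (n.T τ) (fun i => s * (ν i : ℂ)) u w := by
    intro k
    rw [← ev_EP (n := n) ν (n.b k) s τ, Matrix.smul_apply, smul_eq_mul, map_mul, gm_evC']
    rfl
  rw [Finset.sum_congr rfl fun k _ => h1 k]
  unfold Cq
  simp only [Matrix.sub_apply, mul_sub, Finset.sum_sub_distrib]
  congr 1
  · unfold Par.E
    simp only [Matrix.of_apply, Finset.mul_sum]
    rw [Finset.sum_comm]
    refine Finset.sum_congr rfl fun a _ => ?_
    by_cases hu : u = P.fl (w.1 * P.D.refl a)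
    · simp only [if_pos hu]
      rw [ch_sum, Finset.sum_mul]
      exact Finset.sum_congr rfl fun j _ => by ring
    · simp only [if_neg hu, mul_zero, Finset.sum_const_zero]
  · simp only [Matrix.diagonal_apply]
    by_cases huw : u = w
    · simp only [if_pos huw]
      exact hv_sum c n.b u.1 _
    · simp only [if_neg huw, mul_zero, Finset.sum_const_zero]

theorem exists_reg (P : Par r) :
    ∃ ν : Fin r → ℤ, Function.Injective fun w : P.X => P.D.hv P.ctr w.1 (cc ν) := by
  obtain ⟨ξ, _, h⟩ := exists_xi P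
  refine ⟨ξ, fun u w huw => h ?_⟩
  have h1 : ∀ w : P.X, P.D.hv P.ctr w.1 (cc ξ) = ((dotProduct ξ (P.D.rt w.1 P.tr) : ℤ) : ℂ) := by
    intro w
    rw [hv_ctr]
    unfold pr cc dotProduct
    push_cast
    exact Finset.sum_congr rfl fun i _ => mul_comm _ _
  have h2 : P.D.hv P.ctr u.1 (cc ξ) = P.D.hv P.ctr w.1 (cc ξ) := huw
  rw [h1, h1] at h2
  exact_mod_cast h2

private theorem det_map' {R R' ι : Type*} [CommRing R] [CommRing R'] [Fintype ι] [DecidableEq ι]
    (φ : R →+* R') (M : Matrix ι ι R) : (M.map φ).det = φ M.det :=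
  (RingHom.map_det φ M).symm

theorem hank_ne {ν : Fin r → ℤ}
    (hν : Function.Injective fun w : P.X => P.D.hv P.ctr w.1 (cc ν)) :
    (hankel (n.EP ν P.ctr)).det ≠ 0 := by
  intro h1
  obtain ⟨s, hs⟩ := exists_hankel (P.E (P.D.ch P.ctr) (n.T 0)) hν
  apply hs
  have h3 : ev s 0 (hankel (n.EP ν P.ctr)).det = 0 := by rw [h1, map_zero]
  have h3' : ((hankel (n.EP ν P.ctr)).map (ev s 0)).det = 0 :=
    (det_map' (ev s 0) (hankel (n.EP ν P.ctr))).trans h3
  rw [← hankel_map (ev s 0) (n.EP ν P.ctr), ev_EP] at h3'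
  have h4 : P.Cq P.ctr (n.T 0) (fun i => s * (ν i : ℂ)) =
      P.E (P.D.ch P.ctr) (n.T 0) -
        s • Matrix.diagonal fun w : P.X => P.D.hv P.ctr w.1 (cc ν) := by
    unfold Cq
    congr 1
    ext u w
    rw [Matrix.smul_apply, Matrix.diagonal_apply, Matrix.diagonal_apply]
    by_cases huw : u = w
    · rw [if_pos huw, if_pos huw]
      have h5 : (fun i => s * (ν i : ℂ)) = s • cc ν := rfl
      unfold RS.hv
      rw [h5, P.D.yt_smul, smul_eq_mul, Finset.mul_sum]
      refine Finset.sum_congr rfl fun j _ => ?_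
      rw [Pi.smul_apply, smul_eq_mul]
      ring
    · rw [if_neg huw, if_neg huw, smul_zero]
  rw [← h4]
  exact h3'

theorem EO_euler (k : Fin m) : (n.EO P.ctr).map (dO (Pi.single k 1)) = n.EO (n.b k) +
      n.EO (n.b k) * Matrix.diagonal (fun w : P.X => ((P.len w.1 : ℕ) : OO m)) -
        Matrix.diagonal (fun w : P.X => ((P.len w.1 : ℕ) : OO m)) * n.EO (n.b k) := by
  ext1 u w
  rw [Matrix.map_apply, gm_dEO, Matrix.sub_apply, Matrix.add_apply, Matrix.mul_diagonal,
    Matrix.diagonal_mul]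
  unfold EO
  rw [Matrix.of_apply, Finset.sum_mul, Finset.mul_sum, ← Finset.sum_add_distrib,
    ← Finset.sum_sub_distrib]
  refine Finset.sum_congr rfl fun a ha => ?_
  by_cases hu : u = P.fl (w.1 * P.D.refl a)
  · simp only [if_pos hu]
    rw [ch_ctr, mul_comm, mul_smul]
    by_cases hl : P.len u.1 = P.len w.1 + 1
    · have h2 : ¬ ((P.len u.1 : ℤ) + P.L a = P.len w.1 + 1) := by
        have h3 := two_le_L ha
        omega
      rw [if_pos hl, if_neg h2, hl]
      simp only [smul_zero, add_zero]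
      push_cast
      rw [smul_mul_assoc, mul_smul_comm, one_mul, mul_one, smul_add]
      abel
    · rw [if_neg hl, zero_add]
      by_cases h2 : (P.len u.1 : ℤ) + P.L a = P.len w.1 + 1
      · rw [if_pos h2]
        have h3 : ((P.L a : ℤ) : ℂ) = (P.len w.1 : ℂ) + 1 - P.len u.1 := by
          have h4 : P.L a = (P.len w.1 : ℤ) + 1 - P.len u.1 := by omega
          rw [h4]
          push_cast
          ring
        have h5 : ∀ (j : ℕ) (x : OO m), ((j : ℕ) : OO m) * x = ((j : ℕ) : ℂ) • x := by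
          intro j x
          rw [Algebra.smul_def, map_natCast]
        rw [h3, mul_comm _ ((P.len w.1 : ℕ) : OO m), h5, h5, sub_smul, add_smul, one_smul, smul_sub,
          smul_add, smul_comm (P.D.ch (n.b k) a) ((P.len w.1 : ℕ) : ℂ),
          smul_comm (P.D.ch (n.b k) a) ((P.len u.1 : ℕ) : ℂ)]
        abel
      · rw [if_neg h2]
        simp
  · simp [hu]

end Bas

end Pool.Agent.FLG.Par
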