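import Pool.Agent.FLG.P.Scale
import Pool.Agent.FLG.GenP

/-!
# FLG-PG-Schur: the nil-Hecke module of `G/P` is a brick
-/

set_option autoImplicit false

open scoped BigOperators
open Pool.Agent.DST.TE

namespace Pool.Agent.FLG.Par

open RS

variable {r : ℕ} {D : RS r} {P : Par r}

/-- the height -/
private def sh {r : ℕ} (a : Fin r → ℤ) : ℤ := ∑ j, a j

private theorem sh_neg (a : Fin r → ℤ) : sh (-a) = -sh a := by
  unfold sh
  simp only [Pi.neg_apply, Finset.sum_neg_distrib]

private theorem sh_pos {a : Fin r → ℤ} (ha : a ∈ D.Pos) : 0 < sh a := by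
  have h1 := (RS.mem_Pos.1 ha).2
  have h2 := ne_zero (mem_of_pos ha)
  unfold sh
  refine lt_of_le_of_ne (Finset.sum_nonneg fun i _ => h1 i) ?_
  intro h
  apply h2
  funext i
  exact (Finset.sum_eq_zero_iff_of_nonneg fun i _ => h1 i).1 h.symm i (Finset.mem_univ i)

private theorem sh_refl {a : Fin r → ℤ} (ha : a ∈ D.Φ) (w : D.W) :
    D.rt (D.refl a * w)⁻¹ a = -D.rt w⁻¹ a := by
  rw [mul_inv_rev, refl_inv ha, D.rt_mul, rt_refl_self ha, D.rt_neg]

private theorem sh_sq {a : Fin r → ℤ} (ha : a ∈ D.Φ) (w : D.W) :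
    D.refl a * (D.refl a * w) = w := by
  rw [← mul_assoc, refl_mul_self ha, one_mul]

/-- the combinatorial part -/
private theorem sch_comb {S : D.W → Prop} (h1 : S 1)
    (hs : ∀ i w, S w → D.rt w⁻¹ (al i) ∉ D.Pos → S (D.s i * w))
    (hθ : ∀ b, D.IsMax b → ∀ w, S w → D.rt w⁻¹ b ∈ D.Pos → S (D.refl b * w)) : ∀ w, S w := by
  classical
  set χ : D.W → ℤ := fun w => if S w then 1 else 0 with hχ
  set F : (Fin r → ℤ) → ℤ := fun β => ∑ w : D.W, χ w * sh (D.rt w⁻¹ β) with hFd
  have hF : ∀ a ∈ D.Φ, 2 * F a = ∑ w : D.W, (χ w - χ (D.refl a * w)) * sh (D.rt w⁻¹ a) := by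
    intro a ha
    have e1 : F a = ∑ w : D.W, χ (D.refl a * w) * sh (D.rt (D.refl a * w)⁻¹ a) :=
      (Fintype.sum_equiv (Equiv.mulLeft (D.refl a)) _ _ (fun w => rfl)).symm
    have e2 : 2 * F a = (∑ w : D.W, χ w * sh (D.rt w⁻¹ a)) +
        ∑ w : D.W, χ (D.refl a * w) * sh (D.rt (D.refl a * w)⁻¹ a) := by
      rw [← e1]
      show 2 * F a = F a + F a
      ring
    rw [e2, ← Finset.sum_add_distrib]
    refine Finset.sum_congr rfl fun w _ => ?_
    rw [sh_refl ha, sh_neg]
    ring
  have hχle : ∀ u v : D.W, (S u → S v) → χ u ≤ χ v := by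
    intro u v huv
    simp only [hχ]
    by_cases h : S u
    · rw [if_pos h, if_pos (huv h)]
    · rw [if_neg h]
      split_ifs <;> norm_num
  have hpos : ∀ i (w : D.W), 0 ≤ (χ w - χ (D.refl (al i) * w)) * sh (D.rt w⁻¹ (al i)) := by
    intro i w
    by_cases h : D.rt w⁻¹ (al i) ∈ D.Pos
    · refine mul_nonneg ?_ (sh_pos h).le
      have h2 := hχle (D.refl (al i) * w) w (fun h3 => by
        have h4 := hs i _ h3 (by
          rw [sh_refl (D.al_mem i)]
          exact neg_not_pos h)
        have h5 : D.s i * (D.refl (al i) * w) = w := sh_sq (D.al_mem i) w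
        rwa [h5] at h4)
      omega
    · have h2 := sh_pos ((not_pos_iff (D.rt_mem.2 (D.al_mem i))).1 h)
      rw [sh_neg] at h2
      have h3 := hχle w (D.refl (al i) * w) (fun h3 => hs i w h3 h)
      refine mul_nonneg_of_nonpos_of_nonpos (by omega) (by omega)
  have hneg : ∀ b, D.IsMax b → ∀ w : D.W, (χ w - χ (D.refl b * w)) * sh (D.rt w⁻¹ b) ≤ 0 := by
    intro b hb w
    by_cases h : D.rt w⁻¹ b ∈ D.Pos
    · refine mul_nonpos_of_nonpos_of_nonneg ?_ (sh_pos h).le
      have h2 := hχle w (D.refl b * w) (fun h3 => hθ b hb w h3 h)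
      omega
    · have h0 := (not_pos_iff (D.rt_mem.2 hb.mem)).1 h
      have h2 := sh_pos h0
      rw [sh_neg] at h2
      have h3 := hχle (D.refl b * w) w (fun h3 => by
        have h4 := hθ b hb _ h3 (by
          rw [sh_refl hb.mem]
          exact h0)
        rwa [sh_sq hb.mem] at h4)
      exact mul_nonpos_of_nonneg_of_nonpos (by omega) (by omega)
  have hFi : ∀ i, 0 ≤ F (al i) := by
    intro i
    have h2 := hF (al i) (D.al_mem i)
    have h3 := Finset.sum_nonneg fun w (_ : w ∈ (Finset.univ : Finset D.W)) => hpos i w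
    omega
  have hFb : ∀ b, D.IsMax b → F b ≤ 0 := by
    intro b hb
    have h2 := hF b hb.mem
    have h3 := Finset.sum_nonpos fun w (_ : w ∈ (Finset.univ : Finset D.W)) => hneg b hb w
    omega
  have hlin : ∀ b : Fin r → ℤ, F b = ∑ i, b i * F (al i) := by
    intro b
    have e1 : ∀ w : D.W, sh (D.rt w⁻¹ b) = ∑ i, b i * sh (D.rt w⁻¹ (al i)) := by
      intro w
      conv_lhs => rw [eq_sum_al b, D.rt_sum]
      simp only [D.rt_smul]
      unfold sh
      simp only [Finset.sum_apply, Pi.smul_apply, smul_eq_mul, Finset.mul_sum]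
      rw [Finset.sum_comm]
    simp only [hFd]
    simp only [e1, Finset.mul_sum]
    rw [Finset.sum_comm]
    refine Finset.sum_congr rfl fun i _ => Finset.sum_congr rfl fun w _ => ?_
    ring
  have hF0 : ∀ i, F (al i) = 0 := by
    intro i
    obtain ⟨b, hb, hle⟩ := exists_max (D.al_mem i)
    have h2 := hFb b hb
    rw [hlin b] at h2
    have h3 : ∀ j ∈ (Finset.univ : Finset (Fin r)), 0 ≤ b j * F (al j) := fun j _ =>
      mul_nonneg ((RS.mem_Pos.1 hb.1).2 j) (hFi j)
    have h4 := (Finset.sum_eq_zero_iff_of_nonneg h3).1 (le_antisymm h2 (Finset.sum_nonneg h3)) i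
      (Finset.mem_univ i)
    have h5 := hle i
    have h6 : (al i : Fin r → ℤ) i = 1 := Pi.single_eq_same i 1
    rw [h6] at h5
    rcases mul_eq_zero.1 h4 with h7 | h7
    · omega
    · exact h7
  have hst : ∀ i (w : D.W), S w → S (D.s i * w) := by
    intro i w hw
    have h2 := hF (al i) (D.al_mem i)
    rw [hF0 i, mul_zero] at h2
    have h3 := (Finset.sum_eq_zero_iff_of_nonneg
      fun w (_ : w ∈ (Finset.univ : Finset D.W)) => hpos i w).1 h2.symm w (Finset.mem_univ w)
    have h4 : sh (D.rt w⁻¹ (al i)) ≠ 0 := by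
      by_cases h : D.rt w⁻¹ (al i) ∈ D.Pos
      · exact (sh_pos h).ne'
      · have h5 := sh_pos ((not_pos_iff (D.rt_mem.2 (D.al_mem i))).1 h)
        rw [sh_neg] at h5
        omega
    have h5 := (mul_eq_zero.1 h3).resolve_right h4
    by_contra h6
    have h7 : χ w = 1 := if_pos hw
    have h8 : χ (D.refl (al i) * w) = 0 := if_neg h6
    omega
  intro w
  have h2 := generation_fin (fun w : D.W => ∀ v, S v → S (w * v)) (fun v hv => by rwa [one_mul])
    (fun w u hw hu v hv => by
      rw [mul_assoc]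
      exact hw _ (hu v hv)) (fun i v hv => hst i v hv) w 1 h1
  rwa [mul_one] at h2


private theorem sch_mulA (M : Matrix P.X P.X ℂ) (i : Fin r) (u w : P.X) :
    (M * P.A i) u w = if P.len (P.lm (P.D.s i) w).1 < P.len w.1 then M u (P.lm (P.D.s i) w) else 0 := by
  rw [Matrix.mul_apply, Finset.sum_eq_single (P.lm (P.D.s i) w)]
  · unfold A
    rw [Matrix.of_apply]
    by_cases h : P.len (P.lm (P.D.s i) w).1 < P.len w.1
    · rw [if_pos ⟨rfl, h⟩, if_pos h, mul_one]
    · rw [if_neg (fun h' => h h'.2), if_neg h, mul_zero]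
  · intro v _ hv
    unfold A
    rw [Matrix.of_apply, if_neg (fun h' => hv h'.1), mul_zero]
  · intro h
    exact absurd (Finset.mem_univ _) h

private theorem lm_s_s (i : Fin r) (u : P.X) : P.lm (P.D.s i) (P.lm (P.D.s i) u) = u := by
  rw [← lm_mul]
  unfold RS.s
  rw [refl_mul_self (P.D.al_mem i), lm_one]

private theorem sch_Amul (M : Matrix P.X P.X ℂ) (i : Fin r) (u w : P.X) :
    (P.A i * M) u w = if P.len u.1 < P.len (P.lm (P.D.s i) u).1 then
      M (P.lm (P.D.s i) u) w else 0 := by
  have hsq : P.lm (P.D.s i) (P.lm (P.D.s i) u) = u := lm_s_s i u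
  rw [Matrix.mul_apply, Finset.sum_eq_single (P.lm (P.D.s i) u)]
  · unfold A
    rw [Matrix.of_apply]
    by_cases h : P.len u.1 < P.len (P.lm (P.D.s i) u).1
    · rw [if_pos ⟨hsq.symm, h⟩, if_pos h, one_mul]
    · rw [if_neg (fun h' => h h'.2), if_neg h, zero_mul]
  · intro v _ hv
    unfold A
    rw [Matrix.of_apply, if_neg, zero_mul]
    rintro ⟨h', -⟩
    apply hv
    rw [h', lm_s_s]
  · intro h
    exact absurd (Finset.mem_univ _) h

private theorem len_lm_s (i : Fin r) (w : P.D.W) : (P.len (P.lm (P.D.s i) (P.fl w)).1 : ℤ) =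
    P.len w + (if P.D.rt w⁻¹ (al i) ∈ P.Pos then 1 else
      if -P.D.rt w⁻¹ (al i) ∈ P.Pos then -1 else 0) := by
  rw [lm_fl, len_fl, s_len]

/-- a reflection which is Levi on the right does not move the fixed point -/
private theorem fl_levi {a : Fin r → ℤ} (ha : a ∈ P.D.Φ) (w : P.D.W) (h : P.Levi (P.D.rt w⁻¹ a)) :
    P.fl (P.D.refl a * w) = P.fl w := by
  have h1 : P.D.refl a * w = w * P.D.refl (P.D.rt w⁻¹ a) := by
    rw [refl_rt w⁻¹ ha, inv_inv]
    group
  rw [h1, fl_mul w (refl_mem h)]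

theorem schur (t : Fin r → ℂ) {K : Matrix P.X P.X ℂ} (hA : ∀ i, K * P.A i = P.A i * K)
    (hθ : ∀ b, P.D.IsMax b → K * P.Aθ b t = P.Aθ b t * K) :
    ∃ k : ℂ, K = k • (1 : Matrix P.X P.X ℂ) := by
  refine ⟨K P.one P.one, ?_⟩
  have hone : P.fl 1 = P.one := fl_val P.one
  have main : ∀ w : P.D.W, ∀ u, K u (P.fl w) = if u = P.fl w then K P.one P.one else 0 := by
    refine sch_comb (S := fun w => ∀ u, K u (P.fl w) = if u = P.fl w then K P.one P.one else 0)
      ?_ ?_ ?_
    · intro u
      rw [hone]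
      by_cases h : u = P.one
      · rw [if_pos h, h]
      · rw [if_neg h]
        have hu : u.1 ≠ 1 := fun h' => h (Subtype.ext h')
        obtain ⟨i, hi⟩ := exists_descent hu
        have hn : P.D.rt u.1⁻¹ (al i) ∉ P.D.Pos := by
          intro h3
          have h4 := len_s_mul_of_pos i u.1 h3
          omega
        have hn' := (not_pos_iff (P.D.rt_mem.2 (P.D.al_mem i))).1 hn
        have hL : -P.D.rt u.1⁻¹ (al i) ∈ P.Pos := by
          refine mem_Pos.2 ⟨hn', fun h3 => ?_⟩
          have h4 := (x_levi u h3).2 hn'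
          rw [P.D.rt_neg, P.D.rt_rt_inv] at h4
          exact neg_not_pos (al_pos P.D i) h4
        have hnp : P.D.rt u.1⁻¹ (al i) ∉ P.Pos := fun h3 => hn (mem_Pos.1 h3).1
        have h5 := len_lm_s i u.1
        rw [fl_val, if_neg hnp, if_pos hL] at h5
        have h2 := congrFun (congrFun (hA i) (P.lm (P.D.s i) u)) P.one
        have h6 : P.len P.one.1 = 0 := by
          show P.len 1 = 0
          unfold len
          rw [Finset.card_eq_zero, Finset.filter_eq_empty_iff]
          intro a ha h7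
          apply h7
          rw [P.D.rt_one]
          exact (mem_Pos.1 ha).1
        rw [sch_mulA, sch_Amul, lm_s_s, h6, if_neg (by omega), if_pos (by omega)] at h2
        exact h2.symm
    · intro i w hw hneg
      by_cases hL : P.Levi (P.D.rt w⁻¹ (al i))
      · show ∀ u, K u (P.fl (P.D.s i * w)) = if u = P.fl (P.D.s i * w) then K P.one P.one else 0
        unfold RS.s
        rw [fl_levi (P.D.al_mem i) w hL]
        exact hw
      · intro u
        have hn' := (not_pos_iff (P.D.rt_mem.2 (P.D.al_mem i))).1 hneg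
        have hP : -P.D.rt w⁻¹ (al i) ∈ P.Pos := by
          refine mem_Pos.2 ⟨hn', fun h3 => hL ?_⟩
          refine ⟨P.D.rt_mem.2 (P.D.al_mem i), fun j hj => ?_⟩
          have h4 := h3.2 j hj
          rw [Pi.neg_apply] at h4
          omega
        have hnp : P.D.rt w⁻¹ (al i) ∉ P.Pos := fun h3 => hneg (mem_Pos.1 h3).1
        have h1 := len_lm_s i w
        rw [if_neg hnp, if_pos hP] at h1
        have h0 := len_fl (P := P) w
        have h2 := congrFun (congrFun (hA i) u) (P.fl w)
        rw [sch_mulA, sch_Amul, if_pos (by omega), hw, lm_fl] at h2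
        rw [h2]
        by_cases h3 : u = P.fl (P.D.s i * w)
        · have h4 : P.lm (P.D.s i) u = P.fl w := by
            rw [h3, ← lm_fl, lm_s_s]
          have h5 : P.len u.1 = P.len (P.lm (P.D.s i) (P.fl w)).1 := by rw [h3, lm_fl]
          rw [if_pos h3, h4, if_pos rfl, if_pos (by omega)]
        · rw [if_neg h3]
          have h4 : P.lm (P.D.s i) u ≠ P.fl w := by
            intro h4
            apply h3
            rw [← lm_s_s i u, h4, lm_fl]
          rw [if_neg h4, ite_self]
    · intro b hb w hw hp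
      by_cases hL : P.Levi (P.D.rt w⁻¹ b)
      · show ∀ u, K u (P.fl (P.D.refl b * w)) = if u = P.fl (P.D.refl b * w) then K P.one P.one else 0
        rw [fl_levi hb.mem w hL]
        exact hw
      · intro u
        have hP : P.D.rt w⁻¹ b ∈ P.Pos := mem_Pos.2 ⟨hp, hL⟩
        obtain ⟨v, hv, hwv⟩ := fl_spec (P := P) w
        have hP' : P.D.rt (P.fl w).1⁻¹ b ∈ P.Pos := by
          have h1 : (P.fl w).1⁻¹ = v * w⁻¹ := by
            conv_rhs => rw [hwv]
            group
          rw [h1, P.D.rt_mul]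
          exact wj_pos hv hP
        have h2 := congrFun (congrFun (hθ b hb) u) (P.fl w)
        have e1 : (K * P.Aθ b t) u (P.fl w) = K u (P.lm (P.D.refl b) (P.fl w)) *
            qq t (-P.D.co (P.D.rt (P.fl w).1⁻¹ b)) := by
          rw [Matrix.mul_apply, Finset.sum_eq_single (P.lm (P.D.refl b) (P.fl w))]
          · unfold Aθ
            rw [Matrix.of_apply, if_pos ⟨rfl, hP'⟩]
          · intro v _ hv
            unfold Aθ
            rw [Matrix.of_apply, if_neg (fun h' => hv h'.1), mul_zero]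
          · intro h
            exact absurd (Finset.mem_univ _) h
        have e2 : (P.Aθ b t * K) u (P.fl w) = P.Aθ b t u (P.fl w) * K P.one P.one := by
          rw [Matrix.mul_apply, Finset.sum_eq_single (P.fl w)]
          · rw [hw (P.fl w), if_pos rfl]
          · intro v _ hv
            rw [hw v, if_neg hv, mul_zero]
          · intro h
            exact absurd (Finset.mem_univ _) h
        rw [e1, e2, lm_fl] at h2
        have hq := qq_ne_zero t (-P.D.co (P.D.rt (P.fl w).1⁻¹ b))
        apply mul_right_cancel₀ hq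
        rw [h2]
        unfold Aθ
        rw [Matrix.of_apply, lm_fl]
        by_cases h3 : u = P.fl (P.D.refl b * w)
        · rw [if_pos ⟨h3, hP'⟩, if_pos h3, mul_comm]
        · rw [if_neg (fun h' => h3 h'.1), if_neg h3, zero_mul, zero_mul]
  ext u w
  have h1 := main w.1 u
  rw [fl_val] at h1
  rw [h1, Matrix.smul_apply, Matrix.one_apply, smul_eq_mul, mul_ite, mul_one, mul_zero]

end Pool.Agent.FLG.Par
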