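import Pool.Agent.FLG.PG.CommE
import Pool.Agent.FLG.P.CommM
import Pool.Agent.FLG.P.Lmat
import Pool.Agent.FLG.G.OO
import Pool.Agent.FLG.G.TElem

/-!
# FLG-PG-TElem: the elementary intertwiners in the `t` directions for `G/P`

`z ∂_h M = Cq h t λ * M - M * Cq h t (x⁻¹ λ)` for `M = Ms, Mθ, Mτ`, `h`, `t` in `H^2(G/P)`.
-/

set_option autoImplicit false

open scoped BigOperators
open Pool.Agent.DST.TE

namespace Pool.Agent.FLG.Par

open RS Pool.Agent.FLG.G

variable {r : ℕ} (P : Par r)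

/-- `M(λ, z, t)` intertwines the divisor equations at `x⁻¹ λ` and at `λ`, `x = t_ν w`. -/
def TInter (w : P.D.W) (ν : Fin r → ℤ)
    (M : (Fin r → ℂ) → ℂ → (Fin r → ℂ) → Matrix P.X P.X ℂ) : Prop :=
  ∀ (y : Fin r → ℂ) (z : ℂ) (t h : Fin r → ℂ), P.Inv t → P.Inv h → ∀ (u v : P.X),
    z * fderiv ℂ (fun t => M y z t u v) t h =
      (P.Cq h t y * M y z t - M y z t * P.Cq h t (P.D.yt w⁻¹ fun i => y i + z * (ν i : ℂ))) u v

/-- Restricted to lines in the `(λ, z)` space the entries are polynomials with coefficients in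
`OO r`. -/
def Rep (M : (Fin r → ℂ) → ℂ → (Fin r → ℂ) → Matrix P.X P.X ℂ) : Prop :=
  ∀ (y₀ y₁ : Fin r → ℂ) (a b : ℂ), ∃ Q : Matrix P.X P.X (Polynomial (OO r)),
    ∀ (x : ℂ) (t : Fin r → ℂ), M (fun i => y₀ i + x * y₁ i) (a + x * b) t = Q.map (ev x t)

def TGood (w : P.D.W) (ν : Fin r → ℤ) : Prop :=
  ∃ M M' : (Fin r → ℂ) → ℂ → (Fin r → ℂ) → Matrix P.X P.X ℂ, P.Rep M ∧ P.Rep M' ∧
    (∀ y z t, M y z t * M' y z t = 1) ∧ P.TInter w ν M

variable {P}

private theorem te_hasFD (μ : Fin r → ℤ) (t : Fin r → ℂ) :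
    HasFDerivAt (fun t : Fin r → ℂ => qq t μ)
      (qq t μ • ∑ i, (μ i : ℂ) • (ContinuousLinearMap.proj i : (Fin r → ℂ) →L[ℂ] ℂ)) t := by
  have h1 : HasFDerivAt (fun t : Fin r → ℂ => ∑ i, t i * (μ i : ℂ))
      (∑ i, (μ i : ℂ) • (ContinuousLinearMap.proj i : (Fin r → ℂ) →L[ℂ] ℂ)) t := by
    have h2 : (fun t : Fin r → ℂ => ∑ i, t i * (μ i : ℂ)) =
        fun t => (∑ i, (μ i : ℂ) • (ContinuousLinearMap.proj i : (Fin r → ℂ) →L[ℂ] ℂ)) t := by
      funext t
      rw [sum_apply]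
      refine Finset.sum_congr rfl fun i _ => ?_
      rw [smul_apply, ContinuousLinearMap.proj_apply, smul_eq_mul, mul_comm]
    rw [h2]
    exact ContinuousLinearMap.hasFDerivAt _
  exact h1.cexp

/-- scalar version of `Rep` -/
private def Rs (f : (Fin r → ℂ) → ℂ → (Fin r → ℂ) → ℂ) : Prop :=
  ∀ (y₀ y₁ : Fin r → ℂ) (a b : ℂ), ∃ p : Polynomial (OO r),
    ∀ (x : ℂ) (t : Fin r → ℂ), f (fun i => y₀ i + x * y₁ i) (a + x * b) t = ev x t p

private theorem rep_of {M : (Fin r → ℂ) → ℂ → (Fin r → ℂ) → Matrix P.X P.X ℂ}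
    (h : ∀ u v, Rs fun y z t => M y z t u v) : P.Rep M := by
  intro y₀ y₁ a b
  choose p hp using fun u v => h u v y₀ y₁ a b
  refine ⟨Matrix.of p, fun x t => ?_⟩
  ext u v
  exact hp u v x t

private theorem ev_C (x : ℂ) (t : Fin r → ℂ) (f : OO r) : ev x t (Polynomial.C f) = f.1 t := by
  unfold ev
  rw [Polynomial.coe_eval₂RingHom, Polynomial.eval₂_C]
  rfl

private theorem ev_X (x : ℂ) (t : Fin r → ℂ) : ev x t (Polynomial.X : Polynomial (OO r)) = x := by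
  unfold ev
  rw [Polynomial.coe_eval₂RingHom, Polynomial.eval₂_X]

private theorem rs_const (c : ℂ) : Rs (r := r) fun _ _ _ => c := by
  intro y₀ y₁ a b
  refine ⟨Polynomial.C (algebraMap ℂ (OO r) c), fun x t => ?_⟩
  rw [ev_C]
  rfl

private theorem rs_z : Rs (r := r) fun _ z _ => z := by
  intro y₀ y₁ a b
  refine ⟨Polynomial.C (algebraMap ℂ (OO r) a) + Polynomial.X * Polynomial.C (algebraMap ℂ (OO r) b),
    fun x t => ?_⟩
  rw [map_add, map_mul, ev_C, ev_C, ev_X]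
  rfl

private theorem rs_pr (c : Fin r → ℤ) : Rs (r := r) fun y _ _ => pr c y := by
  intro y₀ y₁ a b
  refine ⟨Polynomial.C (algebraMap ℂ (OO r) (pr c y₀)) +
    Polynomial.X * Polynomial.C (algebraMap ℂ (OO r) (pr c y₁)), fun x t => ?_⟩
  rw [map_add, map_mul, ev_C, ev_C, ev_X]
  show pr c (fun i => y₀ i + x * y₁ i) = pr c y₀ + x * pr c y₁
  unfold pr
  rw [Finset.mul_sum, ← Finset.sum_add_distrib]
  refine Finset.sum_congr rfl fun i _ => ?_
  ring

private theorem rs_qq (μ : Fin r → ℤ) : Rs (r := r) fun _ _ t => qq t μ := by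
  intro y₀ y₁ a b
  refine ⟨Polynomial.C (qO μ), fun x t => ?_⟩
  rw [ev_C]
  rfl

private theorem rs_add {f g : (Fin r → ℂ) → ℂ → (Fin r → ℂ) → ℂ} (hf : Rs f) (hg : Rs g) :
    Rs fun y z t => f y z t + g y z t := by
  intro y₀ y₁ a b
  obtain ⟨p, hp⟩ := hf y₀ y₁ a b
  obtain ⟨q, hq⟩ := hg y₀ y₁ a b
  refine ⟨p + q, fun x t => ?_⟩
  rw [map_add, ← hp, ← hq]

private theorem rs_sub {f g : (Fin r → ℂ) → ℂ → (Fin r → ℂ) → ℂ} (hf : Rs f) (hg : Rs g) :
    Rs fun y z t => f y z t - g y z t := by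
  intro y₀ y₁ a b
  obtain ⟨p, hp⟩ := hf y₀ y₁ a b
  obtain ⟨q, hq⟩ := hg y₀ y₁ a b
  refine ⟨p - q, fun x t => ?_⟩
  have h1 : ev x t (p - q) = ev x t p - ev x t q := RingHom.map_sub (ev x t) p q
  rw [h1, ← hp, ← hq]

private theorem rs_mul {f g : (Fin r → ℂ) → ℂ → (Fin r → ℂ) → ℂ} (hf : Rs f) (hg : Rs g) :
    Rs fun y z t => f y z t * g y z t := by
  intro y₀ y₁ a b
  obtain ⟨p, hp⟩ := hf y₀ y₁ a b
  obtain ⟨q, hq⟩ := hg y₀ y₁ a b
  refine ⟨p * q, fun x t => ?_⟩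
  rw [map_mul, ← hp, ← hq]

theorem tgood_one : P.TGood 1 0 := by
  refine ⟨fun _ _ _ => 1, fun _ _ _ => 1, rep_of fun u v => rs_const _, rep_of fun u v => rs_const _,
    fun _ _ _ => mul_one _, fun y z t h _ _ u v => ?_⟩
  have h1 : (fun i => y i + z * (((0 : Fin r → ℤ) i : ℤ) : ℂ)) = y := by
    funext i
    rw [Pi.zero_apply, Int.cast_zero, mul_zero, add_zero]
  rw [h1, inv_one, P.D.yt_one, mul_one, one_mul, sub_self]
  have h2 : fderiv ℂ (fun _ : Fin r → ℂ => (1 : Matrix P.X P.X ℂ) u v) t = 0 := by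
    exact fderiv_const_apply _
  rw [h2]
  simp

private theorem te_A_sq (i : Fin r) : P.A i * P.A i = 0 := by
  ext u w
  rw [Matrix.mul_apply, Matrix.zero_apply]
  refine Finset.sum_eq_zero fun k _ => ?_
  unfold A
  rw [Matrix.of_apply, Matrix.of_apply]
  by_cases h1 : u = P.lm (P.D.s i) k ∧ P.len u.1 < P.len k.1
  · by_cases h2 : k = P.lm (P.D.s i) w ∧ P.len k.1 < P.len w.1
    · exfalso
      obtain ⟨e1, l1⟩ := h1
      obtain ⟨e2, l2⟩ := h2
      have h3 : u = w := by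
        rw [e1, e2, ← lm_mul]
        unfold RS.s
        rw [refl_mul_self (P.D.al_mem i), lm_one]
      rw [h3] at l1
      omega
    · rw [if_neg h2, mul_zero]
  · rw [if_neg h1, zero_mul]

/-- the labels at `lm w v` -/
private theorem te_lm {w : P.D.W} (v : P.X) {b : Fin r → ℤ} :
    ∃ x ∈ P.WJ, P.D.rt (P.lm w v).1⁻¹ b = P.D.rt x (P.D.rt v.1⁻¹ (P.D.rt w⁻¹ b)) := by
  obtain ⟨x, hx, h1⟩ := fl_spec (P := P) (w * v.1)
  refine ⟨x, hx, ?_⟩
  have h2 : (P.lm w v).1⁻¹ = x * (v.1⁻¹ * w⁻¹) := by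
    unfold lm
    rw [← mul_inv_rev]
    conv_rhs => rw [h1]
    group
  rw [h2, P.D.rt_mul, P.D.rt_mul]

private theorem te_θ_sq {b : Fin r → ℤ} (hb : b ∈ P.D.Φ) (t : Fin r → ℂ) :
    P.Aθ b t * P.Aθ b t = 0 := by
  ext u w
  rw [Matrix.mul_apply, Matrix.zero_apply]
  refine Finset.sum_eq_zero fun k _ => ?_
  unfold Aθ
  rw [Matrix.of_apply, Matrix.of_apply]
  by_cases h1 : u = P.lm (P.D.refl b) k ∧ P.D.rt k.1⁻¹ b ∈ P.Pos
  · by_cases h2 : k = P.lm (P.D.refl b) w ∧ P.D.rt w.1⁻¹ b ∈ P.Pos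
    · exfalso
      obtain ⟨_, p1⟩ := h1
      obtain ⟨e2, p2⟩ := h2
      obtain ⟨x, hx, h3⟩ := te_lm (P := P) (w := P.D.refl b) w (b := b)
      rw [e2, h3, refl_inv hb, rt_refl_self hb, P.D.rt_neg, P.D.rt_neg] at p1
      exact neg_not_pos (mem_Pos.1 (wj_pos hx p2)).1 (mem_Pos.1 p1).1
    · rw [if_neg h2, mul_zero]
  · rw [if_neg h1, zero_mul]

private theorem te_inv {A : Matrix P.X P.X ℂ} (hA : A * A = 0) (k : ℂ) :
    (1 - k • A) * (1 + k • A) = 1 ∧ (1 + k • A) * (1 - k • A) = 1 := by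
  constructor
  · rw [sub_mul, mul_add, mul_add, one_mul, one_mul, mul_one, Matrix.smul_mul, Matrix.mul_smul, hA, smul_zero,
      smul_zero, add_zero]
    abel
  · rw [add_mul, mul_sub, mul_sub, one_mul, one_mul, mul_one, Matrix.smul_mul, Matrix.mul_smul, hA, smul_zero,
      smul_zero, sub_zero]
    abel

private theorem te_entry (A : Matrix P.X P.X ℂ) (k : ℂ) (u v : P.X) :
    (1 + k • A) u v = (1 : Matrix P.X P.X ℂ) u v + k * A u v := rfl

private theorem te_entry' (A : Matrix P.X P.X ℂ) (k : ℂ) (u v : P.X) :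
    (1 - k • A) u v = (1 : Matrix P.X P.X ℂ) u v - k * A u v := rfl

theorem tgood_s (i : Fin r) : P.TGood (P.D.s i) 0 := by
  refine ⟨fun y _ _ => 1 - pr (al i) y • P.A i, fun y _ _ => 1 + pr (al i) y • P.A i,
    rep_of fun u v => rs_sub (rs_const _) (rs_mul (rs_pr _) (rs_const _)),
    rep_of fun u v => rs_add (rs_const _) (rs_mul (rs_pr _) (rs_const _)),
    fun y z t => (te_inv (te_A_sq i) _).1, fun y z t h ht hh u v => ?_⟩
  have h1 : (fun i => y i + z * (((0 : Fin r → ℤ) i : ℤ) : ℂ)) = y := by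
    funext i
    rw [Pi.zero_apply, Int.cast_zero, mul_zero, add_zero]
  rw [h1]
  have h3 := (IsLeft.simple (P := P) i).comm hh ht y
  rw [h3, sub_self]
  have h2 : fderiv ℂ (fun _ : Fin r → ℂ => (1 - pr (al i) y • P.A i) u v) t = 0 := by
    exact fderiv_const_apply _
  rw [h2]
  simp

private theorem te_hv_co (h : Fin r → ℂ) (w : P.D.W) {b : Fin r → ℤ} (hb : b ∈ P.D.Φ) :
    P.D.hv h w (cc (P.D.co b)) = P.D.ch h (P.D.rt w⁻¹ b) := by
  unfold RS.hv RS.ch
  refine Finset.sum_congr rfl fun j _ => ?_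
  rw [P.D.yt_cc, co_rt_eq w⁻¹ hb]
  rfl

private theorem te_hv_add (h : Fin r → ℂ) (w : P.D.W) (x y : Fin r → ℂ) :
    P.D.hv h w (x + y) = P.D.hv h w x + P.D.hv h w y := by
  unfold RS.hv
  rw [P.D.yt_add, ← Finset.sum_add_distrib]
  refine Finset.sum_congr rfl fun j _ => ?_
  rw [Pi.add_apply]
  ring

private theorem te_hv_smul (h : Fin r → ℂ) (w : P.D.W) (c : ℂ) (y : Fin r → ℂ) :
    P.D.hv h w (c • y) = c * P.D.hv h w y := by
  unfold RS.hv
  rw [P.D.yt_smul, Finset.mul_sum]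
  refine Finset.sum_congr rfl fun j _ => ?_
  rw [Pi.smul_apply, smul_eq_mul]
  ring

private theorem te_pr_co {b : Fin r → ℤ} (hb : b ∈ P.D.Φ) : pr b (cc (P.D.co b)) = 2 := by
  have h1 : pr b (cc (P.D.co b)) = ((dotProduct (P.D.co b) b : ℤ) : ℂ) := by
    unfold pr cc dotProduct
    rw [Int.cast_sum]
    refine Finset.sum_congr rfl fun i _ => ?_
    rw [Int.cast_mul, mul_comm]
  rw [h1, P.D.co_self b hb]
  norm_num

private theorem te_hv_yt (h : Fin r → ℂ) (w v : P.D.W) (y : Fin r → ℂ) :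
    P.D.hv h v (P.D.yt w⁻¹ y) = P.D.hv h (w * v) y := (hv_mul h w v y).symm

private theorem te_shift (y : Fin r → ℂ) (z : ℂ) (ν : Fin r → ℤ) :
    (fun i => y i + z * (ν i : ℂ)) = y + z • cc ν := rfl

private theorem te_mat {E A B Q : Matrix P.X P.X ℂ} (k : ℂ) :
    (E - B) * (1 + k • A) - (1 + k • A) * (E - Q) =
      (Q - B) + k • (E * A - A * E) - k • (B * A - A * Q) := by
  rw [sub_mul, mul_add, mul_add, mul_one, mul_one, add_mul, one_mul, Matrix.mul_smul, Matrix.mul_smul,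
    Matrix.smul_mul, mul_sub, smul_sub, smul_sub, smul_sub]
  abel

theorem tgood_th {b : Fin r → ℤ} (h : P.D.IsMax b) : P.TGood (P.D.refl b) (P.D.co b) := by
  have hb : b ∈ P.D.Φ := mem_of_pos h.1
  have hA : ∀ u v, Rs (r := r) fun _ _ t => P.Aθ b t u v := by
    intro u v
    by_cases hc : u = P.lm (P.D.refl b) v ∧ P.D.rt v.1⁻¹ b ∈ P.Pos
    · have h1 : (fun (_ : Fin r → ℂ) (_ : ℂ) (t : Fin r → ℂ) => P.Aθ b t u v) =
          fun _ _ t => qq t (-P.D.co (P.D.rt v.1⁻¹ b)) := by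
        funext y z t
        unfold Aθ
        rw [Matrix.of_apply, if_pos hc]
      rw [h1]
      exact rs_qq _
    · have h1 : (fun (_ : Fin r → ℂ) (_ : ℂ) (t : Fin r → ℂ) => P.Aθ b t u v) = fun _ _ _ => 0 := by
        funext y z t
        unfold Aθ
        rw [Matrix.of_apply, if_neg hc]
      rw [h1]
      exact rs_const _
  refine ⟨fun y z t => 1 + (z + pr b y) • P.Aθ b t, fun y z t => 1 - (z + pr b y) • P.Aθ b t,
    rep_of fun u v => rs_add (rs_const _) (rs_mul (rs_add rs_z (rs_pr b)) (hA u v)),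
    rep_of fun u v => rs_sub (rs_const _) (rs_mul (rs_add rs_z (rs_pr b)) (hA u v)),
    fun y z t => (te_inv (te_θ_sq hb t) _).2, fun y z t g ht hg u v => ?_⟩
  obtain ⟨k, hk⟩ : ∃ k : ℂ, k = z + pr b y := ⟨_, rfl⟩
  have hdA : fderiv ℂ (fun t => (1 + (z + pr b y) • P.Aθ b t) u v) t g =
      -(k * (P.D.ch g (P.D.rt v.1⁻¹ b) * P.Aθ b t u v)) := by
    by_cases hc : u = P.lm (P.D.refl b) v ∧ P.D.rt v.1⁻¹ b ∈ P.Pos
    · have h1 : (fun t => (1 + (z + pr b y) • P.Aθ b t) u v) =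
          fun t => (1 : Matrix P.X P.X ℂ) u v + k * qq t (-P.D.co (P.D.rt v.1⁻¹ b)) := by
        funext t
        rw [te_entry, ← hk]
        unfold Aθ
        rw [Matrix.of_apply, if_pos hc]
      have h2 := ((te_hasFD (-P.D.co (P.D.rt v.1⁻¹ b)) t).const_mul k).const_add ((1 : Matrix P.X P.X ℂ) u v)
      have h3 : P.Aθ b t u v = qq t (-P.D.co (P.D.rt v.1⁻¹ b)) := by
        unfold Aθ
        rw [Matrix.of_apply, if_pos hc]
      have h4 := fderiv_qq (-P.D.co (P.D.rt v.1⁻¹ b)) t g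
      rw [(te_hasFD (-P.D.co (P.D.rt v.1⁻¹ b)) t).fderiv] at h4
      rw [h1, h2.fderiv, smul_apply, h4, h3, smul_eq_mul]
      have h5 : ∑ i, g i * (((-P.D.co (P.D.rt v.1⁻¹ b)) i : ℤ) : ℂ) = -P.D.ch g (P.D.rt v.1⁻¹ b) := by
        unfold RS.ch
        rw [← Finset.sum_neg_distrib]
        refine Finset.sum_congr rfl fun i _ => ?_
        rw [Pi.neg_apply, Int.cast_neg, mul_neg]
      rw [h5]
      ring
    · have h1 : (fun t => (1 + (z + pr b y) • P.Aθ b t) u v) =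
          fun _ => (1 : Matrix P.X P.X ℂ) u v := by
        funext t
        rw [te_entry]
        unfold Aθ
        rw [Matrix.of_apply, if_neg hc, mul_zero, add_zero]
      have h3 : P.Aθ b t u v = 0 := by
        unfold Aθ
        rw [Matrix.of_apply, if_neg hc]
      have h2 : fderiv ℂ (fun _ : Fin r → ℂ => (1 : Matrix P.X P.X ℂ) u v) t = 0 := by
        exact fderiv_const_apply _
      rw [h1, h2, h3]
      simp
  have hy' : ∀ w : P.D.W, P.D.hv g w (P.D.yt (P.D.refl b)⁻¹ (y + z • cc (P.D.co b))) =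
      P.D.hv g w y - k * P.D.ch g (P.D.rt w⁻¹ b) := by
    intro w
    rw [te_hv_yt, hv_refl g w hb, te_hv_add, te_hv_smul, te_hv_co g w hb, pr_add, hk]
    have h1 : pr b (z • cc (P.D.co b)) = z * 2 := by
      rw [← te_pr_co hb]
      unfold pr
      rw [Finset.mul_sum]
      refine Finset.sum_congr rfl fun i _ => ?_
      rw [Pi.smul_apply, smul_eq_mul]
      ring
    rw [h1]
    ring
  have hcomm := E_Aθ (P := P) (c := P.D.ch g) (lab_ch hg) h ht
  have hm : P.Cq g t y * (1 + k • P.Aθ b t) - (1 + k • P.Aθ b t) *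
      P.Cq g t (P.D.yt (P.D.refl b)⁻¹ (y + z • cc (P.D.co b))) =
      (Matrix.diagonal (fun w : P.X => P.D.hv g w.1 (P.D.yt (P.D.refl b)⁻¹ (y + z • cc (P.D.co b)))) -
        Matrix.diagonal (fun w : P.X => P.D.hv g w.1 y)) + k • Matrix.diagonal (fun w : P.X => P.D.ch g (P.D.rt w.1⁻¹ b)) -
      k • (Matrix.diagonal (fun w : P.X => P.D.hv g w.1 y) * P.Aθ b t - P.Aθ b t *
        Matrix.diagonal (fun w : P.X => P.D.hv g w.1 (P.D.yt (P.D.refl b)⁻¹ (y + z • cc (P.D.co b))))) := by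
    rw [← hcomm]
    exact te_mat k
  have hdiag : (Matrix.diagonal (fun w : P.X => P.D.hv g w.1 (P.D.yt (P.D.refl b)⁻¹ (y + z • cc (P.D.co b)))) -
        Matrix.diagonal (fun w : P.X => P.D.hv g w.1 y)) + k • Matrix.diagonal (fun w : P.X => P.D.ch g (P.D.rt w.1⁻¹ b)) =
        (0 : Matrix P.X P.X ℂ) := by
    rw [Matrix.diagonal_sub, ← Matrix.diagonal_smul, Matrix.diagonal_add, ← Matrix.diagonal_zero]
    congr 1
    funext w
    rw [hy' w.1, Pi.smul_apply, smul_eq_mul]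
    ring
  rw [hdiag, zero_sub] at hm
  rw [te_shift, hdA]
  show z * -(k * (P.D.ch g (P.D.rt v.1⁻¹ b) * P.Aθ b t u v)) = (P.Cq g t y * (1 + (z + pr b y) • P.Aθ b t) -
    (1 + (z + pr b y) • P.Aθ b t) * P.Cq g t (P.D.yt (P.D.refl b)⁻¹ (y + z • cc (P.D.co b)))) u v
  rw [← hk, hm, Matrix.neg_apply, Matrix.smul_apply, Matrix.sub_apply, Matrix.diagonal_mul,
    Matrix.mul_diagonal, smul_eq_mul, hy' v.1]
  by_cases hc : u = P.lm (P.D.refl b) v ∧ P.D.rt v.1⁻¹ b ∈ P.Pos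
  · have h5 : P.D.hv g (P.lm (P.D.refl b) v).1 y = P.D.hv g (P.D.refl b * v.1) y := hv_fl hg _ y
    rw [hc.1, h5, hv_refl g v.1 hb, hk]
    ring
  · have h3 : P.Aθ b t u v = 0 := by
      unfold Aθ
      rw [Matrix.of_apply, if_neg hc]
    rw [h3]
    ring

theorem tgood_tau {w : P.D.W} {ν : Fin r → ℤ} (h : P.D.IsTau w ν) : P.TGood w ν := by
  have hM : ∀ u v, Rs (r := r) fun _ _ t => P.Mτ w ν t u v := by
    intro u v
    by_cases hc : u = P.lm w v
    · have h1 : (fun (_ : Fin r → ℂ) (_ : ℂ) (t : Fin r → ℂ) => P.Mτ w ν t u v) =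
          fun _ _ t => qq t (P.D.yt u.1⁻¹ ν) := by
        funext y z t
        unfold Mτ
        rw [Matrix.of_apply, if_pos hc]
      rw [h1]
      exact rs_qq _
    · have h1 : (fun (_ : Fin r → ℂ) (_ : ℂ) (t : Fin r → ℂ) => P.Mτ w ν t u v) = fun _ _ _ => 0 := by
        funext y z t
        unfold Mτ
        rw [Matrix.of_apply, if_neg hc]
      rw [h1]
      exact rs_const _
  have hN : ∀ u v, Rs (r := r) fun _ _ t => if v = P.lm w u then qq t (-P.D.yt v.1⁻¹ ν) else 0 := by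
    intro u v
    by_cases hc : v = P.lm w u
    · have h1 : (fun (_ : Fin r → ℂ) (_ : ℂ) (t : Fin r → ℂ) =>
          if v = P.lm w u then qq t (-P.D.yt v.1⁻¹ ν) else 0) = fun _ _ t => qq t (-P.D.yt v.1⁻¹ ν) := by
        funext y z t
        rw [if_pos hc]
      rw [h1]
      exact rs_qq _
    · have h1 : (fun (_ : Fin r → ℂ) (_ : ℂ) (t : Fin r → ℂ) =>
          if v = P.lm w u then qq t (-P.D.yt v.1⁻¹ ν) else 0) = fun _ _ _ => 0 := by
        funext y z t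
        rw [if_neg hc]
      rw [h1]
      exact rs_const _
  refine ⟨fun _ _ t => P.Mτ w ν t, fun _ _ t => Matrix.of fun u v => if v = P.lm w u then
    qq t (-P.D.yt v.1⁻¹ ν) else 0, rep_of hM, rep_of hN, fun y z t => ?_, fun y z t g ht hg u v => ?_⟩
  · show P.Mτ w ν t * (Matrix.of fun u v => if v = P.lm w u then qq t (-P.D.yt v.1⁻¹ ν) else 0) = 1
    ext u v
    rw [Matrix.mul_apply, Finset.sum_eq_single (P.lm w⁻¹ u)]
    · unfold Mτ
      rw [Matrix.of_apply, Matrix.of_apply, if_pos (lm_lm_inv w u).symm, lm_lm_inv]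
      by_cases huv : u = v
      · rw [huv, if_pos rfl, Matrix.one_apply_eq, ← qq_add, add_neg_cancel, qq_zero]
      · rw [if_neg fun h' => huv h'.symm, mul_zero, Matrix.one_apply_ne huv]
    · intro k _ hk
      unfold Mτ
      rw [Matrix.of_apply, if_neg, zero_mul]
      rintro rfl
      exact hk (lm_inv_lm w k).symm
    · exact fun h' => absurd (Finset.mem_univ _) h'
  · rw [te_shift]
    have hE := E_Mτ (P := P) (lab_ch hg) h ht
    have hm : P.Cq g t y * P.Mτ w ν t - P.Mτ w ν t * P.Cq g t (P.D.yt w⁻¹ (y + z • cc ν)) =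
        P.Mτ w ν t * Matrix.diagonal (fun x : P.X => P.D.hv g x.1 (P.D.yt w⁻¹ (y + z • cc ν))) -
          Matrix.diagonal (fun x : P.X => P.D.hv g x.1 y) * P.Mτ w ν t := by
      unfold Cq
      rw [sub_mul, mul_sub, hE]
      abel
    show z * fderiv ℂ (fun t => P.Mτ w ν t u v) t g = (P.Cq g t y * P.Mτ w ν t - P.Mτ w ν t *
      P.Cq g t (P.D.yt w⁻¹ (y + z • cc ν))) u v
    rw [hm, Matrix.sub_apply, Matrix.mul_diagonal, Matrix.diagonal_mul, te_hv_yt, te_hv_add, te_hv_smul]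
    by_cases hc : u = P.lm w v
    · have h1 : (fun t => P.Mτ w ν t u v) = fun t => qq t (P.D.yt u.1⁻¹ ν) := by
        funext t
        unfold Mτ
        rw [Matrix.of_apply, if_pos hc]
      have h3 : P.Mτ w ν t u v = qq t (P.D.yt u.1⁻¹ ν) := by
        unfold Mτ
        rw [Matrix.of_apply, if_pos hc]
      have h4 : P.D.hv g u.1 (cc ν) = ∑ i, g i * ((P.D.yt u.1⁻¹ ν i : ℤ) : ℂ) := by
        unfold RS.hv
        refine Finset.sum_congr rfl fun i _ => ?_
        rw [P.D.yt_cc]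
        rfl
      have h5 : ∀ y', P.D.hv g (w * v.1) y' = P.D.hv g u.1 y' := fun y' => by
        rw [hc]
        exact (hv_fl hg _ y').symm
      rw [h1, fderiv_qq, h3, h5, h5, h4]
      ring
    · have h1 : (fun t => P.Mτ w ν t u v) = fun _ => (0 : ℂ) := by
        funext t
        unfold Mτ
        rw [Matrix.of_apply, if_neg hc]
      have h3 : P.Mτ w ν t u v = 0 := by
        unfold Mτ
        rw [Matrix.of_apply, if_neg hc]
      have h2 : fderiv ℂ (fun _ : Fin r → ℂ => (0 : ℂ)) t = 0 := by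
        exact fderiv_const_apply _
      rw [h1, h2, h3]
      simp

end Pool.Agent.FLG.Par
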